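import Mathlib

/-! The language of second-order arithmetic, its standard model, a natural deduction
calculus for the underlying two-sorted first-order logic, the theory `Σ¹₁-AC₀`, Gödel numbers,
and reflection sentences.  Only definitions; the proofs are in the other files. -/

namespace Pool.Agent.LibSOA

/-- Number terms, with de Bruijn indices for the number variables. -/
inductive Tm : Type
  | var (i : ℕ)
  | zero
  | one
  | add (t s : Tm)
  | mul (t s : Tm)

/-- Formulas of second-order arithmetic, with de Bruijn indices for the number variables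
(bound by `all`) and, separately, for the set variables (bound by `allS`). -/
inductive Fm : Type
  | eq (t s : Tm)
  | lt (t s : Tm)
  | mem (t : Tm) (X : ℕ)
  | bot
  | imp (φ ψ : Fm)
  | all (φ : Fm)
  | allS (φ : Fm)

namespace Fm

def neg (φ : Fm) : Fm := imp φ bot
def and (φ ψ : Fm) : Fm := neg (imp φ (neg ψ))
def or (φ ψ : Fm) : Fm := imp (neg φ) ψ
def iff (φ ψ : Fm) : Fm := and (imp φ ψ) (imp ψ φ)
def ex (φ : Fm) : Fm := neg (all (neg φ))
def exS (φ : Fm) : Fm := neg (allS (neg φ))

end Fm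

/-- `push a v` is the sequence `a, v 0, v 1, ...`. -/
def push {α : Type} (a : α) (v : ℕ → α) : ℕ → α
  | 0 => a
  | n + 1 => v n

/-- Value of a term. -/
def Tm.val (v : ℕ → ℕ) : Tm → ℕ
  | var i => v i
  | zero => 0
  | one => 1
  | add t s => t.val v + s.val v
  | mul t s => t.val v * s.val v

/-- Truth in the standard model (the natural numbers with the full power set), under an
assignment `v` of numbers and an assignment `V` of sets. -/
def Fm.Sat : Fm → (ℕ → ℕ) → (ℕ → Set ℕ) → Prop
  | eq t s, v, _ => t.val v = s.val v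
  | lt t s, v, _ => t.val v < s.val v
  | mem t X, v, V => t.val v ∈ V X
  | bot, _, _ => False
  | imp φ ψ, v, V => φ.Sat v V → ψ.Sat v V
  | all φ, v, V => ∀ a : ℕ, φ.Sat (push a v) V
  | allS φ, v, V => ∀ A : Set ℕ, φ.Sat v (push A V)

/-- All number variables of the term are `< n`. -/
def Tm.Closed (n : ℕ) : Tm → Prop
  | var i => i < n
  | zero => True
  | one => True
  | add t s => t.Closed n ∧ s.Closed n
  | mul t s => t.Closed n ∧ s.Closed n

/-- All free number variables are `< n` and all free set variables are `< m`. -/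
def Fm.Closed : Fm → ℕ → ℕ → Prop
  | eq t s, n, _ => t.Closed n ∧ s.Closed n
  | lt t s, n, _ => t.Closed n ∧ s.Closed n
  | mem t X, n, m => t.Closed n ∧ X < m
  | bot, _, _ => True
  | imp φ ψ, n, m => φ.Closed n m ∧ ψ.Closed n m
  | all φ, n, m => φ.Closed (n + 1) m
  | allS φ, n, m => φ.Closed n (m + 1)

/-- No set quantifiers. -/
def Fm.Arith : Fm → Prop
  | eq _ _ => True
  | lt _ _ => True
  | mem _ _ => True
  | bot => True
  | imp φ ψ => φ.Arith ∧ ψ.Arith
  | all φ => φ.Arith
  | allS _ => False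

/-- Apply `f` to the variables of a term. -/
def Tm.trav (f : ℕ → Tm) : Tm → Tm
  | var i => f i
  | zero => zero
  | one => one
  | add t s => add (t.trav f) (s.trav f)
  | mul t s => mul (t.trav f) (s.trav f)

/-- Replace each number variable `i` by the term `N k i` and each set variable `X` by `M l X`, where
`k` and `l` are the numbers of number and set quantifiers above it (counted from the given
initial values). -/
def Fm.trav (N : ℕ → ℕ → Tm) (M : ℕ → ℕ → ℕ) : ℕ → ℕ → Fm → Fm
  | k, _, eq t s => eq (t.trav (N k)) (s.trav (N k))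
  | k, _, lt t s => lt (t.trav (N k)) (s.trav (N k))
  | k, l, mem t X => mem (t.trav (N k)) (M l X)
  | _, _, bot => bot
  | k, l, imp φ ψ => imp (Fm.trav N M k l φ) (Fm.trav N M k l ψ)
  | k, l, all φ => all (Fm.trav N M (k + 1) l φ)
  | k, l, allS φ => allS (Fm.trav N M k (l + 1) φ)

def liftN (k i : ℕ) : Tm := if i < k then .var i else .var (i + 1)
def liftM (l X : ℕ) : ℕ := if X < l then X else X + 1
def instN (t : Tm) (k i : ℕ) : Tm :=
  if i < k then .var i else if i = k then t.trav (fun j => .var (j + k)) else .var (i - 1)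
def instM (Y : ℕ) (l X : ℕ) : ℕ := if X < l then X else if X = l then Y + l else X - 1

/-- Raise all free number variables `≥ k` by one (make room for a new variable number `k`). -/
def Fm.lift (k : ℕ) (φ : Fm) : Fm := φ.trav liftN (fun _ X => X) k 0
/-- Raise all free set variables `≥ l` by one. -/
def Fm.liftS (l : ℕ) (φ : Fm) : Fm := φ.trav (fun _ i => .var i) liftM 0 l
/-- Substitute the term `t` for the number variable `0` (and lower the others by one). -/
def Fm.inst (t : Tm) (φ : Fm) : Fm := φ.trav (instN t) (fun _ X => X) 0 0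
/-- Substitute the set variable `Y` for the set variable `0` (and lower the others by one). -/
def Fm.instS (Y : ℕ) (φ : Fm) : Fm := φ.trav (fun _ i => .var i) (instM Y) 0 0

/-- Natural deduction for classical two-sorted first-order logic with equality of numbers. -/
inductive Prf : List Fm → Fm → Prop
  | hyp {Γ : List Fm} {φ : Fm} : φ ∈ Γ → Prf Γ φ
  | impI {Γ : List Fm} {φ ψ : Fm} : Prf (φ :: Γ) ψ → Prf Γ (.imp φ ψ)
  | impE {Γ : List Fm} {φ ψ : Fm} : Prf Γ (.imp φ ψ) → Prf Γ φ → Prf Γ ψ
  | raa {Γ : List Fm} {φ : Fm} : Prf (φ.neg :: Γ) .bot → Prf Γ φ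
  | allI {Γ : List Fm} {φ : Fm} : Prf (Γ.map (Fm.lift 0)) φ → Prf Γ (.all φ)
  | allE {Γ : List Fm} {φ : Fm} (t : Tm) : Prf Γ (.all φ) → Prf Γ (φ.inst t)
  | allSI {Γ : List Fm} {φ : Fm} : Prf (Γ.map (Fm.liftS 0)) φ → Prf Γ (.allS φ)
  | allSE {Γ : List Fm} {φ : Fm} (Y : ℕ) : Prf Γ (.allS φ) → Prf Γ (φ.instS Y)
  | eqI {Γ : List Fm} (t : Tm) : Prf Γ (.eq t t)
  | eqE {Γ : List Fm} {φ : Fm} {s t : Tm} : Prf Γ (.eq s t) → Prf Γ (φ.inst s) → Prf Γ (φ.inst t)

/-- `T` proves `φ`. -/
def Proves (T : Set Fm) (φ : Fm) : Prop := ∃ Γ : List Fm, (∀ ψ ∈ Γ, ψ ∈ T) ∧ Prf Γ φ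

open Fm Tm

/-! ### The theory `Σ¹₁-AC₀` -/

/-- A `Π¹₁` formula: a universal set quantifier in front of an arithmetical formula. -/
def Fm.IsPi11 (φ : Fm) : Prop := ∃ θ : Fm, θ.Arith ∧ φ = allS θ

/-- A `Σ¹₁` formula: an existential set quantifier in front of an arithmetical formula. -/
def Fm.IsSigma11 (φ : Fm) : Prop := ∃ θ : Fm, θ.Arith ∧ φ = exS θ

/-- A sentence: a formula without free variables. -/
def Fm.IsSentence (φ : Fm) : Prop := φ.Closed 0 0

/-- Truth of a sentence in the standard model. -/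
def Fm.IsTrue (φ : Fm) : Prop := φ.Sat (fun _ => 0) (fun _ => ∅)

/-- The term for the pairing `(t, s) = (t + s)² + t`. -/
def pairTm (t s : Tm) : Tm := add (mul (add t s) (add t s)) t

/-- The induction axiom. -/
def indAx : Fm :=
  allS (imp (Fm.and (mem zero 0) (all (imp (mem (var 0) 0) (mem (add (var 0) one) 0))))
    (all (mem (var 0) 0)))

/-- Arithmetical comprehension `∃ X ∀ n (n ∈ X ↔ φ(n))`; `n` is the number variable `0` of `φ`, the
other free variables of `φ` are parameters. -/
def compAx (φ : Fm) : Fm := exS (all (Fm.iff (mem (var 0) 0) (φ.liftS 0)))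

/-- Choice `∀ n ∃ X η(n, X) → ∃ Z ∀ n ∃ X (X = (Z)_n ∧ η(n, X))`, where
`(Z)_n = {m : (m, n) ∈ Z}`; `n` is the number variable `0` of `η` and `X` its set variable `0`. -/
def choiceAx (η : Fm) : Fm :=
  imp (all (exS η))
    (exS (all (exS (Fm.and
      (all (Fm.iff (mem (var 0) 0) (mem (pairTm (var 0) (var 1)) 1)))
      (η.liftS 1)))))

/-- The axioms of `Σ¹₁-AC₀`, in the form in which they may have free variables. -/
inductive SigmaInst : Fm → Prop
  | a1 : SigmaInst (neg (eq (add (var 0) one) zero))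
  | a2 : SigmaInst (imp (eq (add (var 0) one) (add (var 1) one)) (eq (var 0) (var 1)))
  | a3 : SigmaInst (eq (add (var 0) zero) (var 0))
  | a4 : SigmaInst (eq (add (var 0) (add (var 1) one)) (add (add (var 0) (var 1)) one))
  | a5 : SigmaInst (eq (mul (var 0) zero) zero)
  | a6 : SigmaInst (eq (mul (var 0) (add (var 1) one)) (add (mul (var 0) (var 1)) (var 0)))
  | a7 : SigmaInst (neg (lt (var 0) zero))
  | a8 : SigmaInst (Fm.iff (lt (var 0) (add (var 1) one))
      (Fm.or (lt (var 0) (var 1)) (eq (var 0) (var 1))))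
  | ind : SigmaInst indAx
  | comp (φ : Fm) : φ.Arith → SigmaInst (compAx φ)
  | choice (η : Fm) : η.IsSigma11 → SigmaInst (choiceAx η)

/-- Closure under universal quantification. -/
inductive Gen (A : Fm → Prop) : Fm → Prop
  | base {φ : Fm} : A φ → Gen A φ
  | all {φ : Fm} : Gen A φ → Gen A (.all φ)
  | allS {φ : Fm} : Gen A φ → Gen A (.allS φ)

/-- The theory `Σ¹₁-AC₀`: its axioms are the universal closures of the formulas above. -/
def SigmaAC0 : Set Fm := {φ | φ.IsSentence ∧ Gen SigmaInst φ}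

/-! ### Gödel numbers -/

/-- Gödel numbers of terms. -/
def Tm.code : Tm → ℕ
  | var i => Nat.pair 0 i
  | zero => Nat.pair 1 0
  | one => Nat.pair 2 0
  | add t s => Nat.pair 3 (Nat.pair t.code s.code)
  | mul t s => Nat.pair 4 (Nat.pair t.code s.code)

/-- Gödel numbers of formulas. -/
def Fm.code : Fm → ℕ
  | eq t s => Nat.pair 0 (Nat.pair t.code s.code)
  | lt t s => Nat.pair 1 (Nat.pair t.code s.code)
  | mem t X => Nat.pair 2 (Nat.pair t.code X)
  | bot => Nat.pair 3 0
  | imp φ ψ => Nat.pair 4 (Nat.pair φ.code ψ.code)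
  | all φ => Nat.pair 5 φ.code
  | allS φ => Nat.pair 6 φ.code

/-! ### Reflection -/

/-- `φ(n)` is true, for a formula with the number variable `0` free. -/
def Fm.Holds1 (φ : Fm) (n : ℕ) : Prop := φ.Sat (push n fun _ => 0) (fun _ => ∅)

/-- `φ(n, m)` is true, for a formula with the number variables `0` and `1` free. -/
def Fm.Holds2 (φ : Fm) (n m : ℕ) : Prop := φ.Sat (push n (push m fun _ => 0)) (fun _ => ∅)

/-- `φ(n, X)` is true, for a formula with the number variable `0` and the set variable `0` free. -/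
def Fm.HoldsS (φ : Fm) (n : ℕ) (X : Set ℕ) : Prop :=
  φ.Sat (push n fun _ => 0) (push X fun _ => ∅)

/-- An arithmetisation of provability, of the set of `Π¹₁` sentences and of their truth
predicate: arithmetical formulas that have the intended meaning in the standard model. -/
structure Arithmetization where
  /-- `der(p, x)`: `p` is a derivation of the formula `x` -/
  der : Fm
  /-- `hyp(y, p)`: `y` is one of the (finitely many) assumptions of the derivation `p` -/
  hyp : Fm
  /-- `pi(x)`: `x` is a `Π¹₁` sentence -/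
  pi : Fm
  /-- `∀ X tr(x, X)` is the truth predicate for `Π¹₁` sentences `x` -/
  tr : Fm
  der_arith : der.Arith ∧ der.Closed 2 0
  hyp_arith : hyp.Arith ∧ hyp.Closed 2 0
  pi_arith : pi.Arith ∧ pi.Closed 1 0
  tr_arith : tr.Arith ∧ tr.Closed 1 1
  der_sound : ∀ p x : ℕ, der.Holds2 p x →
    ∃ (Γ : List Fm) (φ : Fm), Prf Γ φ ∧ x = φ.code ∧ ∀ ψ ∈ Γ, hyp.Holds2 ψ.code p
  der_complete : ∀ (Γ : List Fm) (φ : Fm), Prf Γ φ →
    ∃ p : ℕ, der.Holds2 p φ.code ∧ ∀ y : ℕ, hyp.Holds2 y p → ∃ ψ ∈ Γ, y = ψ.code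
  pi_correct : ∀ x : ℕ, pi.Holds1 x ↔ ∃ φ : Fm, φ.IsSentence ∧ φ.IsPi11 ∧ x = φ.code
  tr_correct : ∀ φ : Fm, φ.IsSentence → φ.IsPi11 → ((∀ X : Set ℕ, tr.HoldsS φ.code X) ↔ φ.IsTrue)

/-- The provability predicate `Pr_σ(x)` of the theory whose set of axioms is defined by the
formula `σ`: there is a derivation of `x` all of whose assumptions satisfy `σ`. -/
def Arithmetization.Pr (A : Arithmetization) (σ : Fm) : Fm :=
  ex (Fm.and A.der (all (imp A.hyp σ)))

/-- The sentence `∀ x (x is a Π¹₁ sentence → (Pr_σ(x) → True(x)))`. -/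
def Arithmetization.RFN (A : Arithmetization) (σ : Fm) : Fm :=
  all (imp A.pi (imp (A.Pr σ) (allS A.tr)))

end Pool.Agent.LibSOA
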