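import Pool.Agent.LibSOA.Induct

/-! The coded operations of substitution are arithmetical. -/

set_option linter.unreachableTactic false
set_option linter.unusedTactic false

namespace Pool.Agent.LibSOA

open Fm Tm

/-! ### Traversal of terms -/

def t4 (u k x y : ℕ) : ℕ := Nat.pair u (Nat.pair k (Nat.pair x y))
def t5 (u k l x y : ℕ) : ℕ := Nat.pair u (Nat.pair k (Nat.pair l (Nat.pair x y)))

theorem t4_inj {u k x y u' k' x' y' : ℕ} :
    t4 u k x y = t4 u' k' x' y' ↔ u = u' ∧ k = k' ∧ x = x' ∧ y = y' := by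
  simp [t4, Nat.pair_eq_pair]

theorem t5_inj {u k l x y u' k' l' x' y' : ℕ} :
    t5 u k l x y = t5 u' k' l' x' y' ↔ u = u' ∧ k = k' ∧ l = l' ∧ x = x' ∧ y = y' := by
  simp [t5, Nat.pair_eq_pair]

theorem DefF.t4 {f g h k : (ℕ → ℕ) → (ℕ → Set ℕ) → ℕ} (hf : DefF f) (hg : DefF g) (hh : DefF h)
    (hk : DefF k) : DefF fun v V => LibSOA.t4 (f v V) (g v V) (h v V) (k v V) :=
  hf.pair (hg.pair (hh.pair hk))

theorem DefF.t5 {f g h k l : (ℕ → ℕ) → (ℕ → Set ℕ) → ℕ} (hf : DefF f) (hg : DefF g) (hh : DefF h)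
    (hk : DefF k) (hl : DefF l) :
    DefF fun v V => LibSOA.t5 (f v V) (g v V) (h v V) (k v V) (l v V) :=
  hf.pair (hg.pair (hh.pair (hk.pair hl)))

section

variable (NR : ℕ → ℕ → ℕ → ℕ → Prop) (MR : ℕ → ℕ → ℕ → ℕ → Prop)

def TA (n : ℕ) : Prop :=
  (∃ u, ∃ k, ∃ i, ∃ y, NR u k i y ∧ n = t4 u k (Nat.pair 0 i) y) ∨
  (∃ u, ∃ k, n = t4 u k (Nat.pair 1 0) (Nat.pair 1 0)) ∨
  (∃ u, ∃ k, n = t4 u k (Nat.pair 2 0) (Nat.pair 2 0))

def TR (n a b : ℕ) : Prop :=
  ∃ u, ∃ k, ∃ x, ∃ y, ∃ x', ∃ y', a = t4 u k x y ∧ b = t4 u k x' y' ∧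
    (n = t4 u k (Nat.pair 3 (Nat.pair x x')) (Nat.pair 3 (Nat.pair y y')) ∨
     n = t4 u k (Nat.pair 4 (Nat.pair x x')) (Nat.pair 4 (Nat.pair y y')))

def TT (u k x y : ℕ) : Prop := Ind (TA NR) TR (t4 u k x y)

theorem defTA (h : Def4 NR) : Def1 (TA NR) := by
  unfold Def1 TA
  repeat' first
    | exact DefF.const _
    | exact DefF.var _
    | exact Def.true
    | apply h.comp
    | apply DefF.t4
    | apply Def.ex
    | apply Def.all
    | apply Def.iff
    | apply Def.not
    | apply Def.imp
    | apply Def.or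
    | apply Def.and
    | apply Def.lt
    | apply Def.le
    | apply Def.eq
    | apply Def.mem
    | apply DefF.add
    | apply DefF.mul
    | apply DefF.pair

theorem defTR : Def3 TR := by
  unfold Def3 TR
  repeat' first
    | exact DefF.const _
    | exact DefF.var _
    | exact Def.true
    | apply DefF.t4
    | apply Def.ex
    | apply Def.all
    | apply Def.iff
    | apply Def.not
    | apply Def.imp
    | apply Def.or
    | apply Def.and
    | apply Def.lt
    | apply Def.le
    | apply Def.eq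
    | apply Def.mem
    | apply DefF.add
    | apply DefF.mul
    | apply DefF.pair

theorem defTT (h : Def4 NR) : Def4 (TT NR) := by
  have := Def1.ind (defTA NR h) defTR
  unfold Def4 TT
  repeat' first
    | exact DefF.const _
    | exact DefF.var _
    | exact Def.true
    | apply this.comp
    | apply DefF.t4
    | apply Def.ex
    | apply Def.all
    | apply Def.iff
    | apply Def.not
    | apply Def.imp
    | apply Def.or
    | apply Def.and
    | apply Def.lt
    | apply Def.le
    | apply Def.eq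
    | apply Def.mem
    | apply DefF.add
    | apply DefF.mul
    | apply DefF.pair

theorem tt_iff {u : ℕ} {N : ℕ → ℕ → Tm} (h : ∀ k i y, NR u k i y ↔ y = (N k i).code) (k x y : ℕ) :
    TT NR u k x y ↔ ∃ t : Tm, x = t.code ∧ y = (t.trav (N k)).code := by
  constructor
  · intro hI
    have key : ∀ n, Ind (TA NR) TR n → ∀ k x y, n = t4 u k x y →
        ∃ t : Tm, x = t.code ∧ y = (t.trav (N k)).code := by
      intro n hn
      induction hn with
      | @base n hA =>
        intro k x y hxy
        rcases hA with ⟨u', k', i, y', h1, h2⟩ | ⟨u', k', h2⟩ | ⟨u', k', h2⟩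
        · rw [hxy, t4_inj] at h2
          obtain ⟨rfl, rfl, rfl, rfl⟩ := h2
          exact ⟨.var i, rfl, (h _ _ _).1 h1⟩
        · rw [hxy, t4_inj] at h2
          obtain ⟨rfl, rfl, rfl, rfl⟩ := h2
          exact ⟨.zero, rfl, rfl⟩
        · rw [hxy, t4_inj] at h2
          obtain ⟨rfl, rfl, rfl, rfl⟩ := h2
          exact ⟨.one, rfl, rfl⟩
      | @step n a b hR _ _ iha ihb =>
        intro k x y hxy
        obtain ⟨u', k', x1, y1, x2, y2, h1, h2, h3⟩ := hR
        rcases h3 with h3 | h3
        · rw [hxy, t4_inj] at h3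
          obtain ⟨rfl, rfl, rfl, rfl⟩ := h3
          obtain ⟨t, rfl, rfl⟩ := iha _ _ _ h1
          obtain ⟨s, rfl, rfl⟩ := ihb _ _ _ h2
          exact ⟨.add t s, rfl, rfl⟩
        · rw [hxy, t4_inj] at h3
          obtain ⟨rfl, rfl, rfl, rfl⟩ := h3
          obtain ⟨t, rfl, rfl⟩ := iha _ _ _ h1
          obtain ⟨s, rfl, rfl⟩ := ihb _ _ _ h2
          exact ⟨.mul t s, rfl, rfl⟩
    exact key _ hI _ _ _ rfl
  · rintro ⟨t, rfl, rfl⟩
    unfold TT
    induction t with
    | var i => exact .base (Or.inl ⟨u, k, i, _, (h _ _ _).2 rfl, rfl⟩)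
    | zero => exact .base (Or.inr (Or.inl ⟨u, k, rfl⟩))
    | one => exact .base (Or.inr (Or.inr ⟨u, k, rfl⟩))
    | add t s ht hs => exact .step ⟨u, k, _, _, _, _, rfl, rfl, Or.inl rfl⟩ ht hs
    | mul t s ht hs => exact .step ⟨u, k, _, _, _, _, rfl, rfl, Or.inr rfl⟩ ht hs

/-! ### Traversal of formulas -/

def FA (n : ℕ) : Prop :=
  (∃ u, ∃ k, ∃ l, ∃ t, ∃ s, ∃ t', ∃ s', TT NR u k t t' ∧ TT NR u k s s' ∧
    (n = t5 u k l (Nat.pair 0 (Nat.pair t s)) (Nat.pair 0 (Nat.pair t' s')) ∨
     n = t5 u k l (Nat.pair 1 (Nat.pair t s)) (Nat.pair 1 (Nat.pair t' s')))) ∨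
  (∃ u, ∃ k, ∃ l, ∃ t, ∃ t', ∃ X, ∃ X', TT NR u k t t' ∧ MR u l X X' ∧
    n = t5 u k l (Nat.pair 2 (Nat.pair t X)) (Nat.pair 2 (Nat.pair t' X'))) ∨
  (∃ u, ∃ k, ∃ l, n = t5 u k l (Nat.pair 3 0) (Nat.pair 3 0))

def FR (n a b : ℕ) : Prop :=
  (∃ u, ∃ k, ∃ l, ∃ x, ∃ y, ∃ x', ∃ y', a = t5 u k l x y ∧ b = t5 u k l x' y' ∧
    n = t5 u k l (Nat.pair 4 (Nat.pair x x')) (Nat.pair 4 (Nat.pair y y'))) ∨
  (∃ u, ∃ k, ∃ l, ∃ x, ∃ y, a = t5 u (k + 1) l x y ∧
    n = t5 u k l (Nat.pair 5 x) (Nat.pair 5 y)) ∨
  (∃ u, ∃ k, ∃ l, ∃ x, ∃ y, a = t5 u k (l + 1) x y ∧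
    n = t5 u k l (Nat.pair 6 x) (Nat.pair 6 y))

def FT (u k l x y : ℕ) : Prop := Ind (FA NR MR) FR (t5 u k l x y)

theorem defFA (h : Def4 NR) (h' : Def4 MR) : Def1 (FA NR MR) := by
  have hT := defTT NR h
  unfold Def1 FA
  repeat' first
    | exact DefF.const _
    | exact DefF.var _
    | exact Def.true
    | apply hT.comp
    | apply h'.comp
    | apply DefF.t5
    | apply Def.ex
    | apply Def.all
    | apply Def.iff
    | apply Def.not
    | apply Def.imp
    | apply Def.or
    | apply Def.and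
    | apply Def.lt
    | apply Def.le
    | apply Def.eq
    | apply Def.mem
    | apply DefF.add
    | apply DefF.mul
    | apply DefF.pair

theorem defFR : Def3 FR := by
  unfold Def3 FR
  repeat' first
    | exact DefF.const _
    | exact DefF.var _
    | exact Def.true
    | apply DefF.t5
    | apply Def.ex
    | apply Def.all
    | apply Def.iff
    | apply Def.not
    | apply Def.imp
    | apply Def.or
    | apply Def.and
    | apply Def.lt
    | apply Def.le
    | apply Def.eq
    | apply Def.mem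
    | apply DefF.add
    | apply DefF.mul
    | apply DefF.pair

theorem defFT (h : Def4 NR) (h' : Def4 MR) : Def5 (FT NR MR) := by
  have := Def1.ind (defFA NR MR h h') defFR
  unfold Def5 FT
  repeat' first
    | exact DefF.const _
    | exact DefF.var _
    | exact Def.true
    | apply this.comp
    | apply DefF.t5
    | apply Def.ex
    | apply Def.all
    | apply Def.iff
    | apply Def.not
    | apply Def.imp
    | apply Def.or
    | apply Def.and
    | apply Def.lt
    | apply Def.le
    | apply Def.eq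
    | apply Def.mem
    | apply DefF.add
    | apply DefF.mul
    | apply DefF.pair

theorem ft_iff {u : ℕ} {N : ℕ → ℕ → Tm} {M : ℕ → ℕ → ℕ}
    (h : ∀ k i y, NR u k i y ↔ y = (N k i).code) (h' : ∀ l X X', MR u l X X' ↔ X' = M l X)
    (k l x y : ℕ) :
    FT NR MR u k l x y ↔ ∃ φ : Fm, x = φ.code ∧ y = (φ.trav N M k l).code := by
  constructor
  · intro hI
    have key : ∀ n, Ind (FA NR MR) FR n → ∀ k l x y, n = t5 u k l x y →
        ∃ φ : Fm, x = φ.code ∧ y = (φ.trav N M k l).code := by
      intro n hn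
      induction hn with
      | @base n hA =>
        intro k l x y hxy
        rcases hA with ⟨u', k', l', t, s, t', s', h1, h2, h3 | h3⟩ |
          ⟨u', k', l', t, t', X, X', h1, h2, h3⟩ | ⟨u', k', l', h3⟩
        · rw [hxy, t5_inj] at h3
          obtain ⟨rfl, rfl, rfl, rfl, rfl⟩ := h3
          obtain ⟨t, rfl, rfl⟩ := (tt_iff NR h _ _ _).1 h1
          obtain ⟨s, rfl, rfl⟩ := (tt_iff NR h _ _ _).1 h2
          exact ⟨.eq t s, rfl, rfl⟩
        · rw [hxy, t5_inj] at h3
          obtain ⟨rfl, rfl, rfl, rfl, rfl⟩ := h3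
          obtain ⟨t, rfl, rfl⟩ := (tt_iff NR h _ _ _).1 h1
          obtain ⟨s, rfl, rfl⟩ := (tt_iff NR h _ _ _).1 h2
          exact ⟨.lt t s, rfl, rfl⟩
        · rw [hxy, t5_inj] at h3
          obtain ⟨rfl, rfl, rfl, rfl, rfl⟩ := h3
          obtain ⟨t, rfl, rfl⟩ := (tt_iff NR h _ _ _).1 h1
          obtain rfl := (h' _ _ _).1 h2
          exact ⟨.mem t X, rfl, rfl⟩
        · rw [hxy, t5_inj] at h3
          obtain ⟨rfl, rfl, rfl, rfl, rfl⟩ := h3
          exact ⟨.bot, rfl, rfl⟩
      | @step n a b hR _ _ iha ihb =>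
        intro k l x y hxy
        rcases hR with ⟨u', k', l', x1, y1, x2, y2, h1, h2, h3⟩ |
          ⟨u', k', l', x1, y1, h1, h3⟩ | ⟨u', k', l', x1, y1, h1, h3⟩
        · rw [hxy, t5_inj] at h3
          obtain ⟨rfl, rfl, rfl, rfl, rfl⟩ := h3
          obtain ⟨φ, rfl, rfl⟩ := iha _ _ _ _ h1
          obtain ⟨ψ, rfl, rfl⟩ := ihb _ _ _ _ h2
          exact ⟨.imp φ ψ, rfl, rfl⟩
        · rw [hxy, t5_inj] at h3
          obtain ⟨rfl, rfl, rfl, rfl, rfl⟩ := h3
          obtain ⟨φ, rfl, rfl⟩ := iha _ _ _ _ h1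
          exact ⟨.all φ, rfl, rfl⟩
        · rw [hxy, t5_inj] at h3
          obtain ⟨rfl, rfl, rfl, rfl, rfl⟩ := h3
          obtain ⟨φ, rfl, rfl⟩ := iha _ _ _ _ h1
          exact ⟨.allS φ, rfl, rfl⟩
    exact key _ hI _ _ _ _ rfl
  · rintro ⟨φ, rfl, rfl⟩
    unfold FT
    induction φ generalizing k l with
    | eq t s =>
      exact .base (Or.inl ⟨u, k, l, _, _, _, _, (tt_iff NR h _ _ _).2 ⟨t, rfl, rfl⟩,
        (tt_iff NR h _ _ _).2 ⟨s, rfl, rfl⟩, Or.inl rfl⟩)
    | lt t s =>
      exact .base (Or.inl ⟨u, k, l, _, _, _, _, (tt_iff NR h _ _ _).2 ⟨t, rfl, rfl⟩,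
        (tt_iff NR h _ _ _).2 ⟨s, rfl, rfl⟩, Or.inr rfl⟩)
    | mem t X =>
      exact .base (Or.inr (Or.inl ⟨u, k, l, _, _, X, _, (tt_iff NR h _ _ _).2 ⟨t, rfl, rfl⟩,
        (h' _ _ _).2 rfl, rfl⟩))
    | bot => exact .base (Or.inr (Or.inr ⟨u, k, l, rfl⟩))
    | imp φ ψ h1 h2 =>
      exact .step (Or.inl ⟨u, k, l, _, _, _, _, rfl, rfl, rfl⟩) (h1 k l) (h2 k l)
    | all φ ih =>
      exact .step (Or.inr (Or.inl ⟨u, k, l, _, _, rfl, rfl⟩)) (ih (k + 1) l) (ih (k + 1) l)
    | allS φ ih =>
      exact .step (Or.inr (Or.inr ⟨u, k, l, _, _, rfl, rfl⟩)) (ih k (l + 1)) (ih k (l + 1))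

end

/-! ### The four substitution operations -/

def nrLift (_ k i y : ℕ) : Prop :=
  (i < k ∧ y = Nat.pair 0 i) ∨ (¬ i < k ∧ y = Nat.pair 0 (i + 1))
def nrId (_ _ i y : ℕ) : Prop := y = Nat.pair 0 i
def nrShift (_ k i y : ℕ) : Prop := y = Nat.pair 0 (i + k)
def mrId (_ _ X Y : ℕ) : Prop := Y = X
def mrLift (_ l X Y : ℕ) : Prop := (X < l ∧ Y = X) ∨ (¬ X < l ∧ Y = X + 1)
def mrInst (u l X Y : ℕ) : Prop :=
  (X < l ∧ Y = X) ∨ (X = l ∧ Y = u + l) ∨ (l < X ∧ Y + 1 = X)
def TShift (k x y : ℕ) : Prop := TT nrShift 0 k x y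
def nrInst (u k i y : ℕ) : Prop :=
  (i < k ∧ y = Nat.pair 0 i) ∨ (i = k ∧ TShift k u y) ∨
    (∃ j, i = j + 1 ∧ k ≤ j ∧ y = Nat.pair 0 j)

theorem def_nrLift : Def4 nrLift := by
  unfold Def4 nrLift
  repeat' first
    | exact DefF.const _
    | exact DefF.var _
    | exact Def.true
    | apply Def.ex
    | apply Def.all
    | apply Def.iff
    | apply Def.not
    | apply Def.imp
    | apply Def.or
    | apply Def.and
    | apply Def.lt
    | apply Def.le
    | apply Def.eq
    | apply Def.mem
    | apply DefF.add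
    | apply DefF.mul
    | apply DefF.pair
theorem def_nrId : Def4 nrId := by
  unfold Def4 nrId
  repeat' first
    | exact DefF.const _
    | exact DefF.var _
    | exact Def.true
    | apply Def.ex
    | apply Def.all
    | apply Def.iff
    | apply Def.not
    | apply Def.imp
    | apply Def.or
    | apply Def.and
    | apply Def.lt
    | apply Def.le
    | apply Def.eq
    | apply Def.mem
    | apply DefF.add
    | apply DefF.mul
    | apply DefF.pair
theorem def_nrShift : Def4 nrShift := by
  unfold Def4 nrShift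
  repeat' first
    | exact DefF.const _
    | exact DefF.var _
    | exact Def.true
    | apply Def.ex
    | apply Def.all
    | apply Def.iff
    | apply Def.not
    | apply Def.imp
    | apply Def.or
    | apply Def.and
    | apply Def.lt
    | apply Def.le
    | apply Def.eq
    | apply Def.mem
    | apply DefF.add
    | apply DefF.mul
    | apply DefF.pair
theorem def_mrId : Def4 mrId := by
  unfold Def4 mrId
  repeat' first
    | exact DefF.const _
    | exact DefF.var _
    | exact Def.true
    | apply Def.ex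
    | apply Def.all
    | apply Def.iff
    | apply Def.not
    | apply Def.imp
    | apply Def.or
    | apply Def.and
    | apply Def.lt
    | apply Def.le
    | apply Def.eq
    | apply Def.mem
    | apply DefF.add
    | apply DefF.mul
    | apply DefF.pair
theorem def_mrLift : Def4 mrLift := by
  unfold Def4 mrLift
  repeat' first
    | exact DefF.const _
    | exact DefF.var _
    | exact Def.true
    | apply Def.ex
    | apply Def.all
    | apply Def.iff
    | apply Def.not
    | apply Def.imp
    | apply Def.or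
    | apply Def.and
    | apply Def.lt
    | apply Def.le
    | apply Def.eq
    | apply Def.mem
    | apply DefF.add
    | apply DefF.mul
    | apply DefF.pair
theorem def_mrInst : Def4 mrInst := by
  unfold Def4 mrInst
  repeat' first
    | exact DefF.const _
    | exact DefF.var _
    | exact Def.true
    | apply Def.ex
    | apply Def.all
    | apply Def.iff
    | apply Def.not
    | apply Def.imp
    | apply Def.or
    | apply Def.and
    | apply Def.lt
    | apply Def.le
    | apply Def.eq
    | apply Def.mem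
    | apply DefF.add
    | apply DefF.mul
    | apply DefF.pair
theorem def_tShift : Def3 TShift := by
  have h := defTT nrShift def_nrShift
  unfold Def3 TShift
  repeat' first
    | exact DefF.const _
    | exact DefF.var _
    | exact Def.true
    | apply h.comp
    | apply Def.ex
    | apply Def.all
    | apply Def.iff
    | apply Def.not
    | apply Def.imp
    | apply Def.or
    | apply Def.and
    | apply Def.lt
    | apply Def.le
    | apply Def.eq
    | apply Def.mem
    | apply DefF.add
    | apply DefF.mul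
    | apply DefF.pair
theorem def_nrInst : Def4 nrInst := by
  have h := def_tShift
  unfold Def4 nrInst
  repeat' first
    | exact DefF.const _
    | exact DefF.var _
    | exact Def.true
    | apply h.comp
    | apply Def.ex
    | apply Def.all
    | apply Def.iff
    | apply Def.not
    | apply Def.imp
    | apply Def.or
    | apply Def.and
    | apply Def.lt
    | apply Def.le
    | apply Def.eq
    | apply Def.mem
    | apply DefF.add
    | apply DefF.mul
    | apply DefF.pair

def Lift (k x y : ℕ) : Prop := FT nrLift mrId 0 k 0 x y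
def LiftS (l x y : ℕ) : Prop := FT nrId mrLift 0 0 l x y
def Inst (u x y : ℕ) : Prop := FT nrInst mrId u 0 0 x y
def InstS (u x y : ℕ) : Prop := FT nrId mrInst u 0 0 x y

theorem def_Lift : Def3 Lift := by
  have h := defFT _ _ def_nrLift def_mrId
  unfold Def3 Lift
  repeat' first
    | exact DefF.const _
    | exact DefF.var _
    | exact Def.true
    | apply h.comp
    | apply Def.ex
    | apply Def.all
    | apply Def.iff
    | apply Def.not
    | apply Def.imp
    | apply Def.or
    | apply Def.and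
    | apply Def.lt
    | apply Def.le
    | apply Def.eq
    | apply Def.mem
    | apply DefF.add
    | apply DefF.mul
    | apply DefF.pair
theorem def_LiftS : Def3 LiftS := by
  have h := defFT _ _ def_nrId def_mrLift
  unfold Def3 LiftS
  repeat' first
    | exact DefF.const _
    | exact DefF.var _
    | exact Def.true
    | apply h.comp
    | apply Def.ex
    | apply Def.all
    | apply Def.iff
    | apply Def.not
    | apply Def.imp
    | apply Def.or
    | apply Def.and
    | apply Def.lt
    | apply Def.le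
    | apply Def.eq
    | apply Def.mem
    | apply DefF.add
    | apply DefF.mul
    | apply DefF.pair
theorem def_Inst : Def3 Inst := by
  have h := defFT _ _ def_nrInst def_mrId
  unfold Def3 Inst
  repeat' first
    | exact DefF.const _
    | exact DefF.var _
    | exact Def.true
    | apply h.comp
    | apply Def.ex
    | apply Def.all
    | apply Def.iff
    | apply Def.not
    | apply Def.imp
    | apply Def.or
    | apply Def.and
    | apply Def.lt
    | apply Def.le
    | apply Def.eq
    | apply Def.mem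
    | apply DefF.add
    | apply DefF.mul
    | apply DefF.pair
theorem def_InstS : Def3 InstS := by
  have h := defFT _ _ def_nrId def_mrInst
  unfold Def3 InstS
  repeat' first
    | exact DefF.const _
    | exact DefF.var _
    | exact Def.true
    | apply h.comp
    | apply Def.ex
    | apply Def.all
    | apply Def.iff
    | apply Def.not
    | apply Def.imp
    | apply Def.or
    | apply Def.and
    | apply Def.lt
    | apply Def.le
    | apply Def.eq
    | apply Def.mem
    | apply DefF.add
    | apply DefF.mul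
    | apply DefF.pair

theorem tShift_iff (k x y : ℕ) :
    TShift k x y ↔ ∃ t : Tm, x = t.code ∧ y = (t.trav fun j => .var (j + k)).code :=
  tt_iff nrShift (N := fun k j => .var (j + k)) (fun _ _ _ => Iff.rfl) k x y

theorem lift_iff (k x y : ℕ) : Lift k x y ↔ ∃ φ : Fm, x = φ.code ∧ y = (φ.lift k).code := by
  refine ft_iff nrLift mrId (N := liftN) (M := fun _ X => X) (fun k i y => ?_)
    (fun _ _ _ => Iff.rfl) k 0 x y
  unfold nrLift liftN
  by_cases h : i < k <;> simp [h, Tm.code]

theorem liftS_iff (l x y : ℕ) : LiftS l x y ↔ ∃ φ : Fm, x = φ.code ∧ y = (φ.liftS l).code := by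
  refine ft_iff nrId mrLift (N := fun _ i => .var i) (M := liftM) (fun k i y => Iff.rfl)
    (fun l X X' => ?_) 0 l x y
  unfold mrLift liftM
  by_cases h : X < l <;> simp [h]

theorem inst_iff (t : Tm) (x y : ℕ) :
    Inst t.code x y ↔ ∃ φ : Fm, x = φ.code ∧ y = (φ.inst t).code := by
  refine ft_iff nrInst mrId (N := instN t) (M := fun _ X => X) (fun k i y => ?_)
    (fun _ _ _ => Iff.rfl) 0 0 x y
  unfold nrInst instN
  rcases lt_trichotomy i k with h | h | h
  · have h1 : i ≠ k := by omega
    simp only [h, h1, if_true, false_and, true_and, false_or]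
    constructor
    · rintro (h2 | ⟨j, h2, h3, h4⟩)
      · exact h2
      · omega
    · intro h2
      exact Or.inl h2
  · subst h
    simp only [lt_irrefl, if_false, if_true, false_and, true_and, false_or, tShift_iff]
    constructor
    · rintro (⟨s, h2, h3⟩ | ⟨j, h2, h3, h4⟩)
      · rw [Tm.code_injective h2]
        exact h3
      · omega
    · intro h2
      exact Or.inl ⟨t, rfl, h2⟩
  · have h1 : ¬ i < k := by omega
    have h2 : i ≠ k := by omega
    simp only [h1, h2, if_false, false_and, false_or]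
    constructor
    · rintro ⟨j, h3, h4, h5⟩
      subst h3
      simpa [Tm.code] using h5
    · intro h3
      exact ⟨i - 1, by omega, by omega, h3⟩

theorem instS_iff (Y : ℕ) (x y : ℕ) :
    InstS Y x y ↔ ∃ φ : Fm, x = φ.code ∧ y = (φ.instS Y).code := by
  refine ft_iff nrId mrInst (N := fun _ i => .var i) (M := instM Y) (fun k i y => Iff.rfl)
    (fun l X X' => ?_) 0 0 x y
  unfold mrInst instM
  rcases lt_trichotomy X l with h | h | h
  · have h1 : X ≠ l := by omega
    have h2 : ¬ l < X := by omega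
    simp [h, h1, h2]
  · subst h
    simp
  · have h1 : ¬ X < l := by omega
    have h2 : X ≠ l := by omega
    simp only [h1, h2, h, if_false, false_and, false_or, true_and]
    omega

end Pool.Agent.LibSOA
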