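import Pool.Agent.LibSOA.Theory

/-! Arithmetical definability in the standard model. -/

namespace Pool.Agent.LibSOA

open Fm Tm

/-- A relation on assignments that is defined by an arithmetical formula. -/
def Def (P : (ℕ → ℕ) → (ℕ → Set ℕ) → Prop) : Prop :=
  ∃ φ : Fm, φ.Arith ∧ ∀ v V, φ.Sat v V ↔ P v V

/-- Drop the first variable. -/
def tail (v : ℕ → ℕ) : ℕ → ℕ := fun i => v (i + 1)

@[simp] theorem tail_push (a : ℕ) (v : ℕ → ℕ) : tail (push a v) = v := rfl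
theorem tail_apply (v : ℕ → ℕ) (i : ℕ) : tail v i = v (i + 1) := rfl

/-- A function of assignments whose graph is defined by an arithmetical formula. -/
structure DefF (f : (ℕ → ℕ) → (ℕ → Set ℕ) → ℕ) : Prop where
  intro ::
  out : Def fun v V => v 0 = f (tail v) V

theorem Def.congr {P Q : (ℕ → ℕ) → (ℕ → Set ℕ) → Prop} (h : Def P) (hPQ : ∀ v V, P v V ↔ Q v V) :
    Def Q := by
  obtain ⟨φ, h1, h2⟩ := h
  exact ⟨φ, h1, fun v V => (h2 v V).trans (hPQ v V)⟩

theorem Def.true : Def fun _ _ => True := ⟨imp bot bot, ⟨trivial, trivial⟩, fun _ _ => by simp⟩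

theorem Def.not {P : (ℕ → ℕ) → (ℕ → Set ℕ) → Prop} (h : Def P) : Def fun v V => ¬ P v V := by
  obtain ⟨φ, h1, h2⟩ := h
  exact ⟨φ.neg, ⟨h1, trivial⟩, fun v V => by simp [h2]⟩

theorem Def.and {P Q : (ℕ → ℕ) → (ℕ → Set ℕ) → Prop} (h : Def P) (h' : Def Q) :
    Def fun v V => P v V ∧ Q v V := by
  obtain ⟨φ, h1, h2⟩ := h
  obtain ⟨ψ, h3, h4⟩ := h'
  exact ⟨Fm.and φ ψ, by simp [Fm.and, Fm.neg, Fm.Arith, h1, h3], fun v V => by simp [h2, h4]⟩

theorem Def.or {P Q : (ℕ → ℕ) → (ℕ → Set ℕ) → Prop} (h : Def P) (h' : Def Q) :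
    Def fun v V => P v V ∨ Q v V := by
  obtain ⟨φ, h1, h2⟩ := h
  obtain ⟨ψ, h3, h4⟩ := h'
  exact ⟨Fm.or φ ψ, by simp [Fm.or, Fm.neg, Fm.Arith, h1, h3], fun v V => by simp [h2, h4]⟩

theorem Def.imp {P Q : (ℕ → ℕ) → (ℕ → Set ℕ) → Prop} (h : Def P) (h' : Def Q) :
    Def fun v V => P v V → Q v V := by
  obtain ⟨φ, h1, h2⟩ := h
  obtain ⟨ψ, h3, h4⟩ := h'
  exact ⟨Fm.imp φ ψ, ⟨h1, h3⟩, fun v V => by simp [h2, h4]⟩

theorem Def.iff {P Q : (ℕ → ℕ) → (ℕ → Set ℕ) → Prop} (h : Def P) (h' : Def Q) :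
    Def fun v V => (P v V ↔ Q v V) :=
  ((h.imp h').and (h'.imp h)).congr fun _ _ => iff_def.symm

theorem Def.all {P : (ℕ → ℕ) → (ℕ → Set ℕ) → ℕ → Prop} (h : Def fun v V => P (tail v) V (v 0)) :
    Def fun v V => ∀ x, P v V x := by
  obtain ⟨φ, h1, h2⟩ := h
  exact ⟨Fm.all φ, h1, fun v V => by simp [h2]⟩

theorem Def.ex {P : (ℕ → ℕ) → (ℕ → Set ℕ) → ℕ → Prop} (h : Def fun v V => P (tail v) V (v 0)) :
    Def fun v V => ∃ x, P v V x := by
  obtain ⟨φ, h1, h2⟩ := h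
  exact ⟨Fm.ex φ, by simp [Fm.ex, Fm.neg, Fm.Arith, h1], fun v V => by simp [h2]⟩

theorem lift_arith {φ : Fm} (N : ℕ → ℕ → Tm) (M : ℕ → ℕ → ℕ) :
    ∀ k l, φ.Arith → (φ.trav N M k l).Arith := by
  induction φ with
  | eq t s => intros; trivial
  | lt t s => intros; trivial
  | mem t X => intros; trivial
  | bot => intros; trivial
  | imp φ ψ h1 h2 => intro k l h; exact ⟨h1 k l h.1, h2 k l h.2⟩
  | all φ ih => intro k l h; exact ih (k + 1) l h
  | allS φ ih => intro k l h; exact absurd h id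

/-- Substitution of variables. -/
theorem Def.comp_vars {P : (ℕ → ℕ) → (ℕ → Set ℕ) → Prop} (h : Def P) (r : ℕ → ℕ) :
    Def fun v V => P (fun i => v (r i)) V := by
  obtain ⟨φ, h1, h2⟩ := h
  set N : ℕ → ℕ → Tm := fun k i => if i < k then .var i else .var (r (i - k) + k) with hN
  have hN' : ∀ (k : ℕ) (v : ℕ → ℕ) (a i : ℕ),
      (N (k + 1) i).val (push a v) = push a (fun j => (N k j).val v) i := by
    intro k v a i
    cases i with
    | zero => simp [hN]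
    | succ i =>
      by_cases h : i < k
      · simp [hN, h]
      · simp only [hN, Nat.add_lt_add_iff_right, h, if_false, Nat.add_sub_add_right, Tm.val_var,
          push_succ]
        rfl
  refine ⟨φ.trav N (fun _ X => X) 0 0, lift_arith _ _ _ _ h1, fun v V => ?_⟩
  rw [Fm.sat_trav _ _ hN' id_push, h2]
  have : (fun i => (N 0 i).val v) = fun i => v (r i) := by
    funext i
    simp [hN]
  rw [this]

theorem DefF.tail {f : (ℕ → ℕ) → (ℕ → Set ℕ) → ℕ} (h : DefF f) :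
    DefF fun v V => f (tail v) V := by
  have := Def.comp_vars h.out (fun i => if i = 0 then 0 else i + 1)
  refine ⟨this.congr fun v V => ?_⟩
  have e : LibSOA.tail (fun i => v (if i = 0 then 0 else i + 1)) = LibSOA.tail (LibSOA.tail v) := by
    funext i
    simp [LibSOA.tail]
  rw [e]
  simp

theorem DefF.var (k : ℕ) : DefF fun v _ => v k :=
  ⟨eq (.var 0) (.var (k + 1)), trivial, fun _ _ => Iff.rfl⟩

/-- A fixed numeral. -/
def num : ℕ → Tm
  | 0 => .zero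
  | n + 1 => .add (num n) .one

@[simp] theorem val_num (n : ℕ) (v : ℕ → ℕ) : (num n).val v = n := by
  induction n with
  | zero => rfl
  | succ n ih => simp [num, ih]

theorem DefF.const (n : ℕ) : DefF fun _ _ => n :=
  ⟨eq (.var 0) (num n), trivial, fun _ _ => by simp⟩

def Def1 (P : ℕ → Prop) : Prop := Def fun v _ => P (v 0)
def Def2 (P : ℕ → ℕ → Prop) : Prop := Def fun v _ => P (v 0) (v 1)
def Def3 (P : ℕ → ℕ → ℕ → Prop) : Prop := Def fun v _ => P (v 0) (v 1) (v 2)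
def Def4 (P : ℕ → ℕ → ℕ → ℕ → Prop) : Prop := Def fun v _ => P (v 0) (v 1) (v 2) (v 3)
def Def5 (P : ℕ → ℕ → ℕ → ℕ → ℕ → Prop) : Prop :=
  Def fun v _ => P (v 0) (v 1) (v 2) (v 3) (v 4)

theorem Def.subst {P : (ℕ → ℕ) → (ℕ → Set ℕ) → ℕ → Prop}
    (h : Def fun v V => P (tail v) V (v 0)) {f : (ℕ → ℕ) → (ℕ → Set ℕ) → ℕ} (hf : DefF f) :
    Def fun v V => P v V (f v V) := by
  have : Def fun v V => ∃ x, x = f v V ∧ P v V x := Def.ex (Def.and hf.out h)
  exact this.congr fun v V => by simp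

theorem Def1.comp {P : ℕ → Prop} (h : Def1 P) {f : (ℕ → ℕ) → (ℕ → Set ℕ) → ℕ} (hf : DefF f) :
    Def fun v V => P (f v V) :=
  Def.subst (P := fun _ _ x => P x) h hf

theorem Def2.comp {P : ℕ → ℕ → Prop} (h : Def2 P) {f g : (ℕ → ℕ) → (ℕ → Set ℕ) → ℕ}
    (hf : DefF f) (hg : DefF g) : Def fun v V => P (f v V) (g v V) := by
  have h1 : Def fun v V => P (f (tail v) V) (v 0) :=
    Def.subst (P := fun v V x => P x (v 0)) h hf.tail
  exact Def.subst (P := fun v V y => P (f v V) y) h1 hg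

theorem Def3.comp {P : ℕ → ℕ → ℕ → Prop} (h : Def3 P)
    {f g k : (ℕ → ℕ) → (ℕ → Set ℕ) → ℕ}
    (hf : DefF f) (hg : DefF g) (hk : DefF k) : Def fun v V => P (f v V) (g v V) (k v V) := by
  have h1 : Def fun v V => P (f (tail (tail v)) V) (v 0) (v 1) :=
    Def.subst (P := fun v V x => P x (v 0) (v 1)) h hf.tail.tail
  have h2 : Def fun v V => P (f (tail v) V) (g (tail v) V) (v 0) :=
    Def.subst (P := fun v V x => P (f (tail v) V) x (v 0)) h1 hg.tail
  exact Def.subst (P := fun v V y => P (f v V) (g v V) y) h2 hk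

theorem Def4.comp {P : ℕ → ℕ → ℕ → ℕ → Prop} (h : Def4 P)
    {f g k l : (ℕ → ℕ) → (ℕ → Set ℕ) → ℕ}
    (hf : DefF f) (hg : DefF g) (hk : DefF k) (hl : DefF l) :
    Def fun v V => P (f v V) (g v V) (k v V) (l v V) := by
  have h1 : Def fun v V => P (f (tail (tail (tail v))) V) (v 0) (v 1) (v 2) :=
    Def.subst (P := fun v V x => P x (v 0) (v 1) (v 2)) h hf.tail.tail.tail
  have h2 : Def fun v V => P (f (tail (tail v)) V) (g (tail (tail v)) V) (v 0) (v 1) :=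
    Def.subst (P := fun v V x => P (f (tail (tail v)) V) x (v 0) (v 1)) h1 hg.tail.tail
  have h3 : Def fun v V => P (f (tail v) V) (g (tail v) V) (k (tail v) V) (v 0) :=
    Def.subst (P := fun v V x => P (f (tail v) V) (g (tail v) V) x (v 0)) h2 hk.tail
  exact Def.subst (P := fun v V y => P (f v V) (g v V) (k v V) y) h3 hl

theorem Def5.comp {P : ℕ → ℕ → ℕ → ℕ → ℕ → Prop} (h : Def5 P)
    {f g k l m : (ℕ → ℕ) → (ℕ → Set ℕ) → ℕ}
    (hf : DefF f) (hg : DefF g) (hk : DefF k) (hl : DefF l) (hm : DefF m) :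
    Def fun v V => P (f v V) (g v V) (k v V) (l v V) (m v V) := by
  have h1 : Def fun v V => P (f (tail (tail (tail (tail v)))) V) (v 0) (v 1) (v 2) (v 3) :=
    Def.subst (P := fun v V x => P x (v 0) (v 1) (v 2) (v 3)) h hf.tail.tail.tail.tail
  have h2 : Def fun v V => P (f (tail (tail (tail v))) V) (g (tail (tail (tail v))) V)
      (v 0) (v 1) (v 2) :=
    Def.subst (P := fun v V x => P (f (tail (tail (tail v))) V) x (v 0) (v 1) (v 2)) h1
      hg.tail.tail.tail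
  have h3 : Def fun v V => P (f (tail (tail v)) V) (g (tail (tail v)) V) (k (tail (tail v)) V)
      (v 0) (v 1) :=
    Def.subst (P := fun v V x => P (f (tail (tail v)) V) (g (tail (tail v)) V) x (v 0) (v 1)) h2
      hk.tail.tail
  have h4 : Def fun v V => P (f (tail v) V) (g (tail v) V) (k (tail v) V) (l (tail v) V) (v 0) :=
    Def.subst (P := fun v V x => P (f (tail v) V) (g (tail v) V) (k (tail v) V) x (v 0)) h3
      hl.tail
  exact Def.subst (P := fun v V y => P (f v V) (g v V) (k v V) (l v V) y) h4 hm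

theorem def2_eq : Def2 fun a b => a = b := ⟨.eq (.var 0) (.var 1), trivial, fun _ _ => Iff.rfl⟩
theorem def2_lt : Def2 fun a b => a < b := ⟨.lt (.var 0) (.var 1), trivial, fun _ _ => Iff.rfl⟩

theorem Def.eq {f g : (ℕ → ℕ) → (ℕ → Set ℕ) → ℕ} (hf : DefF f) (hg : DefF g) :
    Def fun v V => f v V = g v V := def2_eq.comp hf hg

theorem Def.lt {f g : (ℕ → ℕ) → (ℕ → Set ℕ) → ℕ} (hf : DefF f) (hg : DefF g) :
    Def fun v V => f v V < g v V := def2_lt.comp hf hg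

theorem Def.le {f g : (ℕ → ℕ) → (ℕ → Set ℕ) → ℕ} (hf : DefF f) (hg : DefF g) :
    Def fun v V => f v V ≤ g v V := (Def.lt hg hf).not.congr fun _ _ => not_lt

theorem Def.mem {f : (ℕ → ℕ) → (ℕ → Set ℕ) → ℕ} (hf : DefF f) (X : ℕ) :
    Def fun v V => f v V ∈ V X := by
  have h : Def fun v V => v 0 ∈ V X := ⟨.mem (.var 0) X, trivial, fun _ _ => Iff.rfl⟩
  exact Def.subst (P := fun v V x => x ∈ V X) h hf

/-- An arithmetical function of two arguments. -/
def DefF2 (f : ℕ → ℕ → ℕ) : Prop := Def3 fun z x y => z = f x y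
def DefF1 (f : ℕ → ℕ) : Prop := Def2 fun z x => z = f x

theorem DefF2.comp {F : ℕ → ℕ → ℕ} (h : DefF2 F) {f g : (ℕ → ℕ) → (ℕ → Set ℕ) → ℕ}
    (hf : DefF f) (hg : DefF g) : DefF fun v V => F (f v V) (g v V) :=
  ⟨Def3.comp h (DefF.var 0) hf.tail hg.tail⟩

theorem DefF1.comp {F : ℕ → ℕ} (h : DefF1 F) {f : (ℕ → ℕ) → (ℕ → Set ℕ) → ℕ}
    (hf : DefF f) : DefF fun v V => F (f v V) :=
  ⟨Def2.comp h (DefF.var 0) hf.tail⟩

theorem defF2_add : DefF2 fun x y => x + y :=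
  ⟨.eq (.var 0) (.add (.var 1) (.var 2)), trivial, fun _ _ => Iff.rfl⟩
theorem defF2_mul : DefF2 fun x y => x * y :=
  ⟨.eq (.var 0) (.mul (.var 1) (.var 2)), trivial, fun _ _ => Iff.rfl⟩

theorem DefF.add {f g : (ℕ → ℕ) → (ℕ → Set ℕ) → ℕ} (hf : DefF f) (hg : DefF g) :
    DefF fun v V => f v V + g v V := defF2_add.comp hf hg
theorem DefF.mul {f g : (ℕ → ℕ) → (ℕ → Set ℕ) → ℕ} (hf : DefF f) (hg : DefF g) :
    DefF fun v V => f v V * g v V := defF2_mul.comp hf hg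

theorem defF2_pair : DefF2 Nat.pair := by
  have h : Def fun v _ => (v 1 < v 2 ∧ v 0 = v 2 * v 2 + v 1) ∨
      (¬ v 1 < v 2 ∧ v 0 = v 1 * v 1 + v 1 + v 2) := by
    repeat' first
      | exact DefF.var _
      | apply Def.or
      | apply Def.and
      | apply Def.not
      | apply Def.lt
      | apply Def.eq
      | apply DefF.add
      | apply DefF.mul
  refine h.congr fun v V => ?_
  unfold Nat.pair
  by_cases h : v 1 < v 2
  · simp [h]
  · simp [h]

theorem DefF.pair {f g : (ℕ → ℕ) → (ℕ → Set ℕ) → ℕ} (hf : DefF f) (hg : DefF g) :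
    DefF fun v V => Nat.pair (f v V) (g v V) := defF2_pair.comp hf hg

end Pool.Agent.LibSOA
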