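import Pool.Agent.LibSOA.Codes

/-! Sentences, arithmetical formulas and derivability are arithmetical. -/

set_option linter.unreachableTactic false
set_option linter.unusedTactic false

namespace Pool.Agent.LibSOA

open Fm Tm

def IsTm (x : ℕ) : Prop := TShift 0 x x
def IsFm (x : ℕ) : Prop := ∃ y, Lift 0 x y

theorem def_IsTm : Def1 IsTm := by
  have h := def_tShift
  unfold Def1 IsTm
  repeat' first
    | exact DefF.const _
    | exact DefF.var _
    | exact Def.true
    | apply h.comp
    | apply Def.ex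
    | apply Def.all
    | apply Def.iff
    | apply Def.not
    | apply Def.imp
    | apply Def.or
    | apply Def.and
    | apply Def.lt
    | apply Def.le
    | apply Def.eq
    | apply Def.mem
    | apply DefF.add
    | apply DefF.mul
    | apply DefF.pair
theorem def_IsFm : Def1 IsFm := by
  have h := def_Lift
  unfold Def1 IsFm
  repeat' first
    | exact DefF.const _
    | exact DefF.var _
    | exact Def.true
    | apply h.comp
    | apply Def.ex
    | apply Def.all
    | apply Def.iff
    | apply Def.not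
    | apply Def.imp
    | apply Def.or
    | apply Def.and
    | apply Def.lt
    | apply Def.le
    | apply Def.eq
    | apply Def.mem
    | apply DefF.add
    | apply DefF.mul
    | apply DefF.pair

theorem isTm_iff (x : ℕ) : IsTm x ↔ ∃ t : Tm, x = t.code := by
  unfold IsTm
  rw [tShift_iff]
  constructor
  · rintro ⟨t, h, _⟩
    exact ⟨t, h⟩
  · rintro ⟨t, rfl⟩
    refine ⟨t, rfl, ?_⟩
    simp only [add_zero, Tm.trav_var]

theorem isFm_iff (x : ℕ) : IsFm x ↔ ∃ φ : Fm, x = φ.code := by
  unfold IsFm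
  simp only [lift_iff]
  constructor
  · rintro ⟨y, t, h, _⟩
    exact ⟨t, h⟩
  · rintro ⟨t, rfl⟩
    exact ⟨_, t, rfl, rfl⟩

/-! ### Closedness -/

theorem Tm.closed_of_trav {t : Tm} {k : ℕ} (h : t.trav (liftN k) = t) : t.Closed k := by
  induction t with
  | var i =>
    by_contra hi
    have hi' : ¬ i < k := hi
    simp [Tm.trav, liftN, hi'] at h
  | zero => trivial
  | one => trivial
  | add t s ht hs =>
    simp only [Tm.trav, Tm.add.injEq] at h
    exact ⟨ht h.1, hs h.2⟩
  | mul t s ht hs =>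
    simp only [Tm.trav, Tm.mul.injEq] at h
    exact ⟨ht h.1, hs h.2⟩

theorem Fm.closed_of_trav {φ : Fm} : ∀ {k l k' l' : ℕ},
    φ.trav liftN (fun _ X => X) k l' = φ → φ.trav (fun _ i => .var i) liftM k' l = φ →
      φ.Closed k l := by
  induction φ with
  | eq t s =>
    intro k l k' l' h1 h2
    simp only [Fm.trav, Fm.eq.injEq] at h1
    exact ⟨Tm.closed_of_trav h1.1, Tm.closed_of_trav h1.2⟩
  | lt t s =>
    intro k l k' l' h1 h2
    simp only [Fm.trav, Fm.lt.injEq] at h1
    exact ⟨Tm.closed_of_trav h1.1, Tm.closed_of_trav h1.2⟩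
  | mem t X =>
    intro k l k' l' h1 h2
    simp only [Fm.trav, Fm.mem.injEq] at h1 h2
    refine ⟨Tm.closed_of_trav h1.1, ?_⟩
    by_contra hX
    have hX' : ¬ X < l := hX
    have := h2.2
    simp [liftM, hX'] at this
  | bot => intros; trivial
  | imp φ ψ hφ hψ =>
    intro k l k' l' h1 h2
    simp only [Fm.trav, Fm.imp.injEq] at h1 h2
    exact ⟨hφ h1.1 h2.1, hψ h1.2 h2.2⟩
  | all φ ih =>
    intro k l k' l' h1 h2
    simp only [Fm.trav, Fm.all.injEq] at h1 h2
    exact ih (k := k + 1) h1 h2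
  | allS φ ih =>
    intro k l k' l' h1 h2
    simp only [Fm.trav, Fm.allS.injEq] at h1 h2
    exact ih (l := l + 1) h1 h2

def IsClosed (n m x : ℕ) : Prop := Lift n x x ∧ LiftS m x x

theorem def_IsClosed : Def3 IsClosed := by
  have h := def_Lift
  have h' := def_LiftS
  unfold Def3 IsClosed
  repeat' first
    | exact DefF.const _
    | exact DefF.var _
    | exact Def.true
    | apply h.comp
    | apply h'.comp
    | apply Def.ex
    | apply Def.all
    | apply Def.iff
    | apply Def.not
    | apply Def.imp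
    | apply Def.or
    | apply Def.and
    | apply Def.lt
    | apply Def.le
    | apply Def.eq
    | apply Def.mem
    | apply DefF.add
    | apply DefF.mul
    | apply DefF.pair

theorem isClosed_iff (n m x : ℕ) : IsClosed n m x ↔ ∃ φ : Fm, φ.Closed n m ∧ x = φ.code := by
  unfold IsClosed
  rw [lift_iff, liftS_iff]
  constructor
  · rintro ⟨⟨φ, h1, h2⟩, ⟨ψ, h3, h4⟩⟩
    obtain rfl : φ = ψ := Fm.code_injective (h1.symm.trans h3)
    refine ⟨φ, Fm.closed_of_trav (k' := 0) (l' := 0) ?_ ?_, h1⟩
    · exact Fm.code_injective (h2.symm.trans h1)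
    · exact Fm.code_injective (h4.symm.trans h1)
  · rintro ⟨φ, h, rfl⟩
    exact ⟨⟨φ, rfl, by rw [Fm.lift_eq_self h le_rfl]⟩, ⟨φ, rfl, by rw [Fm.liftS_eq_self h le_rfl]⟩⟩

/-! ### Arithmetical formulas -/

def arA (n : ℕ) : Prop :=
  (∃ t, ∃ s, IsTm t ∧ IsTm s ∧ (n = Nat.pair 0 (Nat.pair t s) ∨ n = Nat.pair 1 (Nat.pair t s))) ∨
  (∃ t, ∃ X, IsTm t ∧ n = Nat.pair 2 (Nat.pair t X)) ∨ n = Nat.pair 3 0
def arR (n a b : ℕ) : Prop := n = Nat.pair 4 (Nat.pair a b) ∨ n = Nat.pair 5 a
def IsAr (x : ℕ) : Prop := Ind arA arR x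

theorem def_IsAr : Def1 IsAr := by
  have h := def_IsTm
  have h1 : Def1 arA := by
    unfold Def1 arA
    repeat' first
      | exact DefF.const _
      | exact DefF.var _
      | exact Def.true
      | apply h.comp
      | apply Def.ex
      | apply Def.all
      | apply Def.iff
      | apply Def.not
      | apply Def.imp
      | apply Def.or
      | apply Def.and
      | apply Def.lt
      | apply Def.le
      | apply Def.eq
      | apply Def.mem
      | apply DefF.add
      | apply DefF.mul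
      | apply DefF.pair
  have h2 : Def3 arR := by
    unfold Def3 arR
    repeat' first
      | exact DefF.const _
      | exact DefF.var _
      | exact Def.true
      | apply Def.ex
      | apply Def.all
      | apply Def.iff
      | apply Def.not
      | apply Def.imp
      | apply Def.or
      | apply Def.and
      | apply Def.lt
      | apply Def.le
      | apply Def.eq
      | apply Def.mem
      | apply DefF.add
      | apply DefF.mul
      | apply DefF.pair
  exact Def1.ind h1 h2

theorem isAr_iff (x : ℕ) : IsAr x ↔ ∃ φ : Fm, φ.Arith ∧ x = φ.code := by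
  constructor
  · intro h
    unfold IsAr at h
    induction h with
    | @base n h =>
      rcases h with ⟨t, s, h1, h2, h3 | h3⟩ | ⟨t, X, h1, h3⟩ | h3
      · obtain ⟨t, rfl⟩ := (isTm_iff _).1 h1
        obtain ⟨s, rfl⟩ := (isTm_iff _).1 h2
        exact ⟨.eq t s, trivial, h3⟩
      · obtain ⟨t, rfl⟩ := (isTm_iff _).1 h1
        obtain ⟨s, rfl⟩ := (isTm_iff _).1 h2
        exact ⟨.lt t s, trivial, h3⟩
      · obtain ⟨t, rfl⟩ := (isTm_iff _).1 h1
        exact ⟨.mem t X, trivial, h3⟩
      · exact ⟨.bot, trivial, h3⟩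
    | @step n a b h _ _ iha ihb =>
      obtain ⟨φ, h1, rfl⟩ := iha
      obtain ⟨ψ, h2, rfl⟩ := ihb
      rcases h with h | h
      · exact ⟨.imp φ ψ, ⟨h1, h2⟩, h⟩
      · exact ⟨.all φ, h1, h⟩
  · rintro ⟨φ, h, rfl⟩
    unfold IsAr
    induction φ with
    | eq t s =>
      exact .base (Or.inl ⟨_, _, (isTm_iff _).2 ⟨t, rfl⟩, (isTm_iff _).2 ⟨s, rfl⟩, Or.inl rfl⟩)
    | lt t s =>
      exact .base (Or.inl ⟨_, _, (isTm_iff _).2 ⟨t, rfl⟩, (isTm_iff _).2 ⟨s, rfl⟩, Or.inr rfl⟩)
    | mem t X => exact .base (Or.inr (Or.inl ⟨_, X, (isTm_iff _).2 ⟨t, rfl⟩, rfl⟩))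
    | bot => exact .base (Or.inr (Or.inr rfl))
    | imp φ ψ h1 h2 => exact .step (Or.inl rfl) (h1 h.1) (h2 h.2)
    | all φ ih => exact .step (Or.inr rfl) (ih h) (ih h)
    | allS φ ih => exact absurd h id

/-! ### Lists -/

def lcode : List ℕ → ℕ
  | [] => 0
  | a :: l => Nat.pair a (lcode l) + 1

theorem lcode_surj (n : ℕ) : ∃ l, n = lcode l := by
  induction n using Nat.strong_induction_on with
  | _ n ih =>
    cases n with
    | zero => exact ⟨[], rfl⟩
    | succ n =>
      obtain ⟨l, hl⟩ := ih n.unpair.2 (lt_of_le_of_lt (Nat.unpair_right_le n) (Nat.lt_succ_self n))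
      refine ⟨n.unpair.1 :: l, ?_⟩
      rw [lcode, ← hl, Nat.pair_unpair]

theorem lcode_inj : Function.Injective lcode := by
  intro l
  induction l with
  | nil => intro m h; cases m <;> simp [lcode] at h ⊢
  | cons a l ih =>
    intro m h
    cases m with
    | nil => simp [lcode] at h
    | cons b m =>
      simp only [lcode, Nat.add_right_cancel_iff, Nat.pair_eq_pair] at h
      rw [h.1, ih h.2]

def lmA (n : ℕ) : Prop := ∃ y, ∃ l, n = Nat.pair y (Nat.pair y l + 1)
def lmR (n a b : ℕ) : Prop := ∃ y, ∃ l, ∃ x, a = Nat.pair y l ∧ n = Nat.pair y (Nat.pair x l + 1)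
def LMem (y l : ℕ) : Prop := Ind lmA lmR (Nat.pair y l)

theorem def_LMem : Def2 LMem := by
  have h1 : Def1 lmA := by
    unfold Def1 lmA
    repeat' first
      | exact DefF.const _
      | exact DefF.var _
      | exact Def.true
      | apply Def.ex
      | apply Def.all
      | apply Def.iff
      | apply Def.not
      | apply Def.imp
      | apply Def.or
      | apply Def.and
      | apply Def.lt
      | apply Def.le
      | apply Def.eq
      | apply Def.mem
      | apply DefF.add
      | apply DefF.mul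
      | apply DefF.pair
  have h2 : Def3 lmR := by
    unfold Def3 lmR
    repeat' first
      | exact DefF.const _
      | exact DefF.var _
      | exact Def.true
      | apply Def.ex
      | apply Def.all
      | apply Def.iff
      | apply Def.not
      | apply Def.imp
      | apply Def.or
      | apply Def.and
      | apply Def.lt
      | apply Def.le
      | apply Def.eq
      | apply Def.mem
      | apply DefF.add
      | apply DefF.mul
      | apply DefF.pair
  have h := Def1.ind h1 h2
  unfold Def2 LMem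
  repeat' first
    | exact DefF.const _
    | exact DefF.var _
    | exact Def.true
    | apply h.comp
    | apply Def.ex
    | apply Def.all
    | apply Def.iff
    | apply Def.not
    | apply Def.imp
    | apply Def.or
    | apply Def.and
    | apply Def.lt
    | apply Def.le
    | apply Def.eq
    | apply Def.mem
    | apply DefF.add
    | apply DefF.mul
    | apply DefF.pair

theorem lMem_iff (y : ℕ) (l : List ℕ) : LMem y (lcode l) ↔ y ∈ l := by
  constructor
  · intro h
    have key : ∀ n, Ind lmA lmR n → ∀ y l, n = Nat.pair y (lcode l) → y ∈ l := by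
      intro n hn
      induction hn with
      | @base n h =>
        intro y l h'
        obtain ⟨y', l', h2⟩ := h
        rw [h', Nat.pair_eq_pair] at h2
        cases l with
        | nil => simp [lcode] at h2
        | cons a l =>
          simp only [lcode, Nat.add_right_cancel_iff, Nat.pair_eq_pair] at h2
          simp [h2.1, h2.2.1]
      | @step n a b h _ _ iha _ =>
        intro y l h'
        obtain ⟨y', l', x, h1, h2⟩ := h
        rw [h', Nat.pair_eq_pair] at h2
        cases l with
        | nil => simp [lcode] at h2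
        | cons c l =>
          simp only [lcode, Nat.add_right_cancel_iff, Nat.pair_eq_pair] at h2
          obtain ⟨rfl, rfl, rfl⟩ := h2
          exact List.mem_cons_of_mem _ (iha _ _ h1)
    exact key _ h _ _ rfl
  · intro h
    unfold LMem
    induction l with
    | nil => simp at h
    | cons a l ih =>
      rcases List.mem_cons.1 h with rfl | h
      · exact .base ⟨y, lcode l, rfl⟩
      · exact .step ⟨y, lcode l, a, rfl, rfl⟩ (ih h) (ih h)

section

variable (Q : ℕ → ℕ → Prop)

def mpA (n : ℕ) : Prop := n = Nat.pair 0 0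
def mpR (n a b : ℕ) : Prop := ∃ x, ∃ y, ∃ l, ∃ m, Q x y ∧ a = Nat.pair l m ∧
  n = Nat.pair (Nat.pair x l + 1) (Nat.pair y m + 1)
def LMap (l m : ℕ) : Prop := Ind mpA (mpR Q) (Nat.pair l m)

theorem def_LMap (hQ : Def2 Q) : Def2 (LMap Q) := by
  have h1 : Def1 mpA := by
    unfold Def1 mpA
    repeat' first
      | exact DefF.const _
      | exact DefF.var _
      | exact Def.true
      | apply Def.ex
      | apply Def.all
      | apply Def.iff
      | apply Def.not
      | apply Def.imp
      | apply Def.or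
      | apply Def.and
      | apply Def.lt
      | apply Def.le
      | apply Def.eq
      | apply Def.mem
      | apply DefF.add
      | apply DefF.mul
      | apply DefF.pair
  have h2 : Def3 (mpR Q) := by
    unfold Def3 mpR
    repeat' first
      | exact DefF.const _
      | exact DefF.var _
      | exact Def.true
      | apply hQ.comp
      | apply Def.ex
      | apply Def.all
      | apply Def.iff
      | apply Def.not
      | apply Def.imp
      | apply Def.or
      | apply Def.and
      | apply Def.lt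
      | apply Def.le
      | apply Def.eq
      | apply Def.mem
      | apply DefF.add
      | apply DefF.mul
      | apply DefF.pair
  have h := Def1.ind h1 h2
  unfold Def2 LMap
  repeat' first
    | exact DefF.const _
    | exact DefF.var _
    | exact Def.true
    | apply h.comp
    | apply Def.ex
    | apply Def.all
    | apply Def.iff
    | apply Def.not
    | apply Def.imp
    | apply Def.or
    | apply Def.and
    | apply Def.lt
    | apply Def.le
    | apply Def.eq
    | apply Def.mem
    | apply DefF.add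
    | apply DefF.mul
    | apply DefF.pair

/-- code of a list of formulas -/
def fcodes (Γ : List Fm) : ℕ := lcode (Γ.map Fm.code)

theorem fcodes_inj : Function.Injective fcodes := fun _ _ h =>
  List.map_injective_iff.2 Fm.code_injective (lcode_inj h)

theorem lMap_iff {f : Fm → Fm} (hf : ∀ x y, Q x y ↔ ∃ φ : Fm, x = φ.code ∧ y = (f φ).code)
    (l m : ℕ) : LMap Q l m ↔ ∃ Γ : List Fm, l = fcodes Γ ∧ m = fcodes (Γ.map f) := by
  constructor
  · intro h
    have key : ∀ n, Ind mpA (mpR Q) n → ∀ l m, n = Nat.pair l m →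
        ∃ Γ : List Fm, l = fcodes Γ ∧ m = fcodes (Γ.map f) := by
      intro n hn
      induction hn with
      | @base n h =>
        intro l m h'
        rw [mpA, h', Nat.pair_eq_pair] at h
        exact ⟨[], h.1, h.2⟩
      | @step n a b h _ _ iha _ =>
        intro l m h'
        obtain ⟨x, y, l', m', h1, h2, h3⟩ := h
        rw [h', Nat.pair_eq_pair] at h3
        obtain ⟨Γ, rfl, rfl⟩ := iha _ _ h2
        obtain ⟨φ, rfl, rfl⟩ := (hf _ _).1 h1
        exact ⟨φ :: Γ, h3.1, h3.2⟩
    exact key _ h _ _ rfl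
  · rintro ⟨Γ, rfl, rfl⟩
    unfold LMap
    induction Γ with
    | nil => exact .base rfl
    | cons φ Γ ih =>
      exact .step ⟨φ.code, (f φ).code, _, _, (hf _ _).2 ⟨φ, rfl, rfl⟩, rfl, rfl⟩ ih ih

end

def Lift0 (x y : ℕ) : Prop := Lift 0 x y
def LiftS0 (x y : ℕ) : Prop := LiftS 0 x y

theorem def_Lift0 : Def2 Lift0 := by
  have h := def_Lift
  unfold Def2 Lift0
  repeat' first
    | exact DefF.const _
    | exact DefF.var _
    | exact Def.true
    | apply h.comp
    | apply Def.ex
    | apply Def.all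
    | apply Def.iff
    | apply Def.not
    | apply Def.imp
    | apply Def.or
    | apply Def.and
    | apply Def.lt
    | apply Def.le
    | apply Def.eq
    | apply Def.mem
    | apply DefF.add
    | apply DefF.mul
    | apply DefF.pair
theorem def_LiftS0 : Def2 LiftS0 := by
  have h := def_LiftS
  unfold Def2 LiftS0
  repeat' first
    | exact DefF.const _
    | exact DefF.var _
    | exact Def.true
    | apply h.comp
    | apply Def.ex
    | apply Def.all
    | apply Def.iff
    | apply Def.not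
    | apply Def.imp
    | apply Def.or
    | apply Def.and
    | apply Def.lt
    | apply Def.le
    | apply Def.eq
    | apply Def.mem
    | apply DefF.add
    | apply DefF.mul
    | apply DefF.pair

/-! ### Derivability -/

def IsCtx (l : ℕ) : Prop := ∃ m, LMap Lift0 l m

theorem def_IsCtx : Def1 IsCtx := by
  have h := def_LMap _ def_Lift0
  unfold Def1 IsCtx
  repeat' first
    | exact DefF.const _
    | exact DefF.var _
    | exact Def.true
    | apply h.comp
    | apply Def.ex
    | apply Def.all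
    | apply Def.iff
    | apply Def.not
    | apply Def.imp
    | apply Def.or
    | apply Def.and
    | apply Def.lt
    | apply Def.le
    | apply Def.eq
    | apply Def.mem
    | apply DefF.add
    | apply DefF.mul
    | apply DefF.pair

theorem isCtx_iff (l : ℕ) : IsCtx l ↔ ∃ Γ, l = fcodes Γ := by
  unfold IsCtx
  simp only [lMap_iff Lift0 (f := Fm.lift 0) (lift_iff 0)]
  constructor
  · rintro ⟨m, Γ, h, _⟩
    exact ⟨Γ, h⟩
  · rintro ⟨Γ, h⟩
    exact ⟨_, Γ, h, rfl⟩

def dA (n : ℕ) : Prop :=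
  (∃ l, ∃ x, IsCtx l ∧ LMem x l ∧ n = Nat.pair l x) ∨
  (∃ l, ∃ t, IsCtx l ∧ IsTm t ∧ n = Nat.pair l (Nat.pair 0 (Nat.pair t t)))

def dR (n a b : ℕ) : Prop :=
  -- impI
  (∃ l, ∃ x, ∃ y, a = Nat.pair (Nat.pair x l + 1) y ∧
    n = Nat.pair l (Nat.pair 4 (Nat.pair x y))) ∨
  -- impE
  (∃ l, ∃ x, ∃ y, a = Nat.pair l (Nat.pair 4 (Nat.pair x y)) ∧ b = Nat.pair l x ∧
    n = Nat.pair l y) ∨
  -- raa
  (∃ l, ∃ x, a = Nat.pair (Nat.pair (Nat.pair 4 (Nat.pair x (Nat.pair 3 0))) l + 1)
    (Nat.pair 3 0) ∧ n = Nat.pair l x) ∨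
  -- allI
  (∃ l, ∃ m, ∃ x, LMap Lift0 l m ∧ a = Nat.pair m x ∧ n = Nat.pair l (Nat.pair 5 x)) ∨
  -- allE
  (∃ l, ∃ t, ∃ x, ∃ y, IsTm t ∧ Inst t x y ∧ a = Nat.pair l (Nat.pair 5 x) ∧ n = Nat.pair l y) ∨
  -- allSI
  (∃ l, ∃ m, ∃ x, LMap LiftS0 l m ∧ a = Nat.pair m x ∧ n = Nat.pair l (Nat.pair 6 x)) ∨
  -- allSE
  (∃ l, ∃ Y, ∃ x, ∃ y, InstS Y x y ∧ a = Nat.pair l (Nat.pair 6 x) ∧ n = Nat.pair l y) ∨
  -- eqE
  (∃ l, ∃ s, ∃ t, ∃ x, ∃ y, ∃ z, IsTm s ∧ IsTm t ∧ Inst s x y ∧ Inst t x z ∧
    a = Nat.pair l (Nat.pair 0 (Nat.pair s t)) ∧ b = Nat.pair l y ∧ n = Nat.pair l z)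

def D (l x : ℕ) : Prop := Ind dA dR (Nat.pair l x)

theorem def_dA : Def1 dA := by
  have h1 := def_IsCtx
  have h2 := def_IsTm
  have h3 := def_LMem
  unfold Def1 dA
  repeat' first
    | exact DefF.const _
    | exact DefF.var _
    | exact Def.true
    | apply h1.comp
    | apply h2.comp
    | apply h3.comp
    | apply Def.ex
    | apply Def.all
    | apply Def.iff
    | apply Def.not
    | apply Def.imp
    | apply Def.or
    | apply Def.and
    | apply Def.lt
    | apply Def.le
    | apply Def.eq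
    | apply Def.mem
    | apply DefF.add
    | apply DefF.mul
    | apply DefF.pair

theorem def_dR : Def3 dR := by
  have h1 := def_IsTm
  have h2 := def_Inst
  have h3 := def_InstS
  have h4 := def_LMap _ def_Lift0
  have h5 := def_LMap _ def_LiftS0
  unfold Def3 dR
  repeat' first
    | exact DefF.const _
    | exact DefF.var _
    | exact Def.true
    | apply h1.comp
    | apply h2.comp
    | apply h3.comp
    | apply h4.comp
    | apply h5.comp
    | apply Def.ex
    | apply Def.all
    | apply Def.iff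
    | apply Def.not
    | apply Def.imp
    | apply Def.or
    | apply Def.and
    | apply Def.lt
    | apply Def.le
    | apply Def.eq
    | apply Def.mem
    | apply DefF.add
    | apply DefF.mul
    | apply DefF.pair

theorem def_D : Def2 D := by
  have h := Def1.ind def_dA def_dR
  unfold Def2 D
  repeat' first
    | exact DefF.const _
    | exact DefF.var _
    | exact Def.true
    | apply h.comp
    | apply Def.ex
    | apply Def.all
    | apply Def.iff
    | apply Def.not
    | apply Def.imp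
    | apply Def.or
    | apply Def.and
    | apply Def.lt
    | apply Def.le
    | apply Def.eq
    | apply Def.mem
    | apply DefF.add
    | apply DefF.mul
    | apply DefF.pair

theorem D_iff (l x : ℕ) : D l x ↔ ∃ (Γ : List Fm) (φ : Fm), l = fcodes Γ ∧ x = φ.code ∧ Prf Γ φ := by
  constructor
  · intro h
    have key : ∀ n, Ind dA dR n → ∀ l x, n = Nat.pair l x →
        ∃ (Γ : List Fm) (φ : Fm), l = fcodes Γ ∧ x = φ.code ∧ Prf Γ φ := by
      intro n hn
      induction hn with
      | @base n h =>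
        intro l x h'
        rcases h with ⟨l', x', h1, h2, h3⟩ | ⟨l', t, h1, h2, h3⟩
        · rw [h', Nat.pair_eq_pair] at h3
          obtain ⟨rfl, rfl⟩ := h3
          obtain ⟨Γ, rfl⟩ := (isCtx_iff _).1 h1
          rw [fcodes, lMem_iff, List.mem_map] at h2
          obtain ⟨φ, h2, rfl⟩ := h2
          exact ⟨Γ, φ, rfl, rfl, .hyp h2⟩
        · rw [h', Nat.pair_eq_pair] at h3
          obtain ⟨rfl, rfl⟩ := h3
          obtain ⟨Γ, rfl⟩ := (isCtx_iff _).1 h1
          obtain ⟨t, rfl⟩ := (isTm_iff _).1 h2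
          exact ⟨Γ, .eq t t, rfl, rfl, .eqI t⟩
      | @step n a b h _ _ iha ihb =>
        intro l x h'
        rcases h with ⟨l', x', y', h1, h3⟩ | ⟨l', x', y', h1, h2, h3⟩ | ⟨l', x', h1, h3⟩ |
          ⟨l', m, x', h1, h2, h3⟩ | ⟨l', t, x', y', h1, h2, h4, h3⟩ | ⟨l', m, x', h1, h2, h3⟩ |
          ⟨l', Y, x', y', h2, h4, h3⟩ | ⟨l', s, t, x', y', z', h1, h2, h4, h5, h6, h7, h3⟩
        · rw [h', Nat.pair_eq_pair] at h3
          obtain ⟨rfl, rfl⟩ := h3
          obtain ⟨Γ, φ, h4, rfl, h5⟩ := iha _ _ h1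
          cases Γ with
          | nil => simp [fcodes, lcode] at h4
          | cons ψ Γ =>
            simp only [fcodes, List.map_cons, lcode, Nat.add_right_cancel_iff,
              Nat.pair_eq_pair] at h4
            obtain ⟨rfl, rfl⟩ := h4
            exact ⟨Γ, .imp ψ φ, rfl, rfl, .impI h5⟩
        · rw [h', Nat.pair_eq_pair] at h3
          obtain ⟨rfl, rfl⟩ := h3
          obtain ⟨Γ, φ, rfl, h5, h6⟩ := iha _ _ h1
          obtain ⟨Γ', φ', h7, h8, h9⟩ := ihb _ _ h2
          obtain rfl := fcodes_inj h7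
          cases φ <;> simp [Fm.code, Nat.pair_eq_pair] at h5
          obtain ⟨rfl, rfl⟩ := h5
          obtain rfl := Fm.code_injective h8
          exact ⟨Γ, _, rfl, rfl, .impE h6 h9⟩
        · rw [h', Nat.pair_eq_pair] at h3
          obtain ⟨rfl, rfl⟩ := h3
          obtain ⟨Γ, φ, h4, h5, h6⟩ := iha _ _ h1
          cases Γ with
          | nil => simp [fcodes, lcode] at h4
          | cons ψ Γ =>
            simp only [fcodes, List.map_cons, lcode, Nat.add_right_cancel_iff,
              Nat.pair_eq_pair] at h4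
            obtain ⟨h7, rfl⟩ := h4
            cases ψ <;> simp [Fm.code, Nat.pair_eq_pair] at h7
            obtain ⟨rfl, h8⟩ := h7
            obtain rfl := Fm.code_injective (a₁ := .bot) h5
            obtain rfl := Fm.code_injective (a₁ := .bot) h8
            exact ⟨Γ, _, rfl, rfl, .raa h6⟩
        · rw [h', Nat.pair_eq_pair] at h3
          obtain ⟨rfl, rfl⟩ := h3
          obtain ⟨Γ, rfl, rfl⟩ := (lMap_iff Lift0 (f := Fm.lift 0) (lift_iff 0) _ _).1 h1
          obtain ⟨Γ', φ, h4, rfl, h6⟩ := iha _ _ h2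
          obtain rfl := fcodes_inj h4
          exact ⟨Γ, .all φ, rfl, rfl, .allI h6⟩
        · rw [h', Nat.pair_eq_pair] at h3
          obtain ⟨rfl, rfl⟩ := h3
          obtain ⟨t, rfl⟩ := (isTm_iff _).1 h1
          obtain ⟨φ, rfl, rfl⟩ := (inst_iff _ _ _).1 h2
          obtain ⟨Γ, ψ, rfl, h5, h6⟩ := iha _ _ h4
          obtain rfl := Fm.code_injective (a₁ := .all φ) h5
          exact ⟨Γ, _, rfl, rfl, .allE t h6⟩
        · rw [h', Nat.pair_eq_pair] at h3
          obtain ⟨rfl, rfl⟩ := h3
          obtain ⟨Γ, rfl, rfl⟩ := (lMap_iff LiftS0 (f := Fm.liftS 0) (liftS_iff 0) _ _).1 h1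
          obtain ⟨Γ', φ, h4, rfl, h6⟩ := iha _ _ h2
          obtain rfl := fcodes_inj h4
          exact ⟨Γ, .allS φ, rfl, rfl, .allSI h6⟩
        · rw [h', Nat.pair_eq_pair] at h3
          obtain ⟨rfl, rfl⟩ := h3
          obtain ⟨φ, rfl, rfl⟩ := (instS_iff _ _ _).1 h2
          obtain ⟨Γ, ψ, rfl, h5, h6⟩ := iha _ _ h4
          obtain rfl := Fm.code_injective (a₁ := .allS φ) h5
          exact ⟨Γ, _, rfl, rfl, .allSE Y h6⟩
        · rw [h', Nat.pair_eq_pair] at h3
          obtain ⟨rfl, rfl⟩ := h3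
          obtain ⟨s, rfl⟩ := (isTm_iff _).1 h1
          obtain ⟨t, rfl⟩ := (isTm_iff _).1 h2
          obtain ⟨φ, rfl, rfl⟩ := (inst_iff _ _ _).1 h4
          obtain ⟨φ', h8, rfl⟩ := (inst_iff _ _ _).1 h5
          obtain rfl := Fm.code_injective h8
          obtain ⟨Γ, ψ, rfl, h9, h10⟩ := iha _ _ h6
          obtain rfl := Fm.code_injective (a₁ := .eq s t) h9
          obtain ⟨Γ', ψ', h11, h12, h13⟩ := ihb _ _ h7
          obtain rfl := fcodes_inj h11
          obtain rfl := Fm.code_injective h12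
          exact ⟨Γ, _, rfl, rfl, .eqE h10 h13⟩
    exact key _ h _ _ rfl
  · rintro ⟨Γ, φ, rfl, rfl, h⟩
    unfold D
    induction h with
    | @hyp Γ φ h =>
      refine .base (Or.inl ⟨_, _, (isCtx_iff _).2 ⟨Γ, rfl⟩, ?_, rfl⟩)
      rw [fcodes, lMem_iff]
      exact List.mem_map_of_mem h
    | @impI Γ φ ψ _ ih => exact .step (Or.inl ⟨_, _, _, rfl, rfl⟩) ih ih
    | @impE Γ φ ψ _ _ ih1 ih2 => exact .step (Or.inr (Or.inl ⟨_, _, _, rfl, rfl, rfl⟩)) ih1 ih2
    | @raa Γ φ _ ih => exact .step (Or.inr (Or.inr (Or.inl ⟨_, _, rfl, rfl⟩))) ih ih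
    | @allI Γ φ _ ih =>
      exact .step (Or.inr (Or.inr (Or.inr (Or.inl ⟨_, _, _,
        (lMap_iff Lift0 (f := Fm.lift 0) (lift_iff 0) _ _).2 ⟨Γ, rfl, rfl⟩, rfl, rfl⟩)))) ih ih
    | @allE Γ φ t _ ih =>
      exact .step (Or.inr (Or.inr (Or.inr (Or.inr (Or.inl ⟨_, _, _, _, (isTm_iff _).2 ⟨t, rfl⟩,
        (inst_iff _ _ _).2 ⟨φ, rfl, rfl⟩, rfl, rfl⟩))))) ih ih
    | @allSI Γ φ _ ih =>
      exact .step (Or.inr (Or.inr (Or.inr (Or.inr (Or.inr (Or.inl ⟨_, _, _,
        (lMap_iff LiftS0 (f := Fm.liftS 0) (liftS_iff 0) _ _).2 ⟨Γ, rfl, rfl⟩, rfl, rfl⟩)))))) ih ih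
    | @allSE Γ φ Y _ ih =>
      exact .step (Or.inr (Or.inr (Or.inr (Or.inr (Or.inr (Or.inr (Or.inl ⟨_, Y, _, _,
        (instS_iff _ _ _).2 ⟨φ, rfl, rfl⟩, rfl, rfl⟩))))))) ih ih
    | @eqI Γ t =>
      exact .base (Or.inr ⟨_, _, (isCtx_iff _).2 ⟨Γ, rfl⟩, (isTm_iff _).2 ⟨t, rfl⟩, rfl⟩)
    | @eqE Γ φ s t _ _ ih1 ih2 =>
      exact .step (Or.inr (Or.inr (Or.inr (Or.inr (Or.inr (Or.inr (Or.inr ⟨_, _, _, _, _, _,
        (isTm_iff _).2 ⟨s, rfl⟩, (isTm_iff _).2 ⟨t, rfl⟩,
        (inst_iff _ _ _).2 ⟨φ, rfl, rfl⟩, (inst_iff _ _ _).2 ⟨φ, rfl, rfl⟩,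
        rfl, rfl, rfl⟩))))))) ih1 ih2

end Pool.Agent.LibSOA
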