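import Pool.Agent.LibSOA.Reflect

/-! The theorem relative to an arithmetisation. -/

namespace Pool.Agent.LibSOA

open Fm Tm

/-- The numeral `0 + 1 + ... + 1`. -/
def numeral : ℕ → Tm
  | 0 => zero
  | n + 1 => add (numeral n) one

@[simp] theorem val_numeral (n : ℕ) (v : ℕ → ℕ) : (numeral n).val v = n := by
  induction n with
  | zero => rfl
  | succ n ih => simp [numeral, ih]

theorem numeral_closed (n k : ℕ) : (numeral n).Closed k := by
  induction n with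
  | zero => trivial
  | succ n ih => exact ⟨ih, trivial⟩

theorem sat_of_holds1 {φ : Fm} (h : φ.Closed 1 0) (n : ℕ) (v : ℕ → ℕ) (V : ℕ → Set ℕ) :
    φ.Sat (push n v) V ↔ φ.Holds1 n := by
  refine Fm.sat_congr h (fun i hi => ?_) (fun X hX => absurd hX (by omega))
  obtain rfl : i = 0 := by omega
  rfl

theorem sat_of_holds2 {φ : Fm} (h : φ.Closed 2 0) (n m : ℕ) (v : ℕ → ℕ) (V : ℕ → Set ℕ) :
    φ.Sat (push n (push m v)) V ↔ φ.Holds2 n m := by
  refine Fm.sat_congr h (fun i hi => ?_) (fun X hX => absurd hX (by omega))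
  match i, hi with
  | 0, _ => rfl
  | 1, _ => rfl

theorem sat_of_holdsS {φ : Fm} (h : φ.Closed 1 1) (n : ℕ) (X : Set ℕ) (v : ℕ → ℕ)
    (V : ℕ → Set ℕ) : φ.Sat (push n v) (push X V) ↔ φ.HoldsS n X := by
  refine Fm.sat_congr h (fun i hi => ?_) (fun Y hY => ?_)
  · obtain rfl : i = 0 := by omega
    rfl
  · obtain rfl : Y = 0 := by omega
    rfl

theorem sat_of_true {φ : Fm} (h : φ.IsSentence) (v : ℕ → ℕ) (V : ℕ → Set ℕ) :
    φ.Sat v V ↔ φ.IsTrue :=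
  Fm.sat_congr h (fun i hi => absurd hi (by omega)) (fun X hX => absurd hX (by omega))

namespace Arithmetization

variable (A : Arithmetization)

theorem sat_pr {σ : Fm} (h : σ.Closed 1 0) (x : ℕ) (v : ℕ → ℕ) (V : ℕ → Set ℕ) :
    (A.Pr σ).Sat (push x v) V ↔
      ∃ p, A.der.Holds2 p x ∧ ∀ y, A.hyp.Holds2 y p → σ.Holds1 y := by
  simp only [Pr, sat_ex, sat_and, sat_all, sat_imp, sat_of_holds2 A.der_arith.2,
    sat_of_holds2 A.hyp_arith.2, sat_of_holds1 h]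

theorem rfn_true {σ : Fm} (h : σ.Closed 1 0)
    (hσ : ∀ n, σ.Holds1 n → ∃ ψ : Fm, ψ.IsSentence ∧ ψ.IsTrue ∧ n = ψ.code) :
    (A.RFN σ).IsTrue := by
  intro x
  simp only [sat_imp, sat_allS, A.sat_pr h, sat_of_holds1 A.pi_arith.2,
    sat_of_holdsS A.tr_arith.2]
  intro hx
  obtain ⟨φ, hφs, hφp, rfl⟩ := (A.pi_correct x).1 hx
  rintro ⟨p, hp, hy⟩
  refine (A.tr_correct φ hφs hφp).2 ?_
  obtain ⟨Γ, φ', hprf, he, hΓ⟩ := A.der_sound p _ hp
  obtain rfl : φ = φ' := Fm.code_injective he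
  refine hprf.sound _ _ fun ψ hψ => ?_
  obtain ⟨χ, hχs, hχt, he'⟩ := hσ _ (hy _ (hΓ ψ hψ))
  obtain rfl : ψ = χ := Fm.code_injective he'
  exact hχt

theorem sat_tau {α : Fm} (h : α.Closed 1 0) (n : ℕ) :
    (A.tau α).Holds1 n ↔ α.Holds1 n ∧ (A.RFN α).IsTrue := by
  have h1 : (A.tau α).Holds1 n ↔ ∀ X : Set ℕ, α.Holds1 n ∧
      ∀ x, A.pi.Holds1 x → (∃ p, A.der.Holds2 p x ∧ ∀ y, A.hyp.Holds2 y p → α.Holds1 y) →
        A.tr.HoldsS x X := by
    unfold Fm.Holds1 tau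
    simp only [sat_allS, sat_and, sat_all, sat_imp]
    simp only [sat_of_holds1 A.pi_arith.2, A.sat_pr h, sat_of_holdsS A.tr_arith.2,
      sat_of_holds1 h]
  have h2 : (A.RFN α).IsTrue ↔ ∀ x, A.pi.Holds1 x →
      (∃ p, A.der.Holds2 p x ∧ ∀ y, A.hyp.Holds2 y p → α.Holds1 y) →
        ∀ X, A.tr.HoldsS x X := by
    unfold Fm.IsTrue RFN
    simp only [sat_allS, sat_all, sat_imp]
    simp only [sat_of_holds1 A.pi_arith.2, A.sat_pr h, sat_of_holdsS A.tr_arith.2]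
  rw [h1, h2]
  constructor
  · intro hX
    exact ⟨(hX ∅).1, fun x hx hp X => (hX X).2 x hx hp⟩
  · rintro ⟨h3, h4⟩ X
    exact ⟨h3, fun x hx hp => h4 x hx hp X⟩

/-- For every true theory `S` with an arithmetical set of axioms there is a true extension
of `S` by one sentence that proves its own `Π¹₁` soundness with respect to a `Π¹₁` definition. -/
theorem exists_theory (S : Set Fm) (hS : ∀ φ ∈ S, φ.IsSentence ∧ φ.IsTrue) (α₀ : Fm)
    (ha : α₀.Arith) (hc : α₀.Closed 1 0) (hα₀ : ∀ n, α₀.Holds1 n ↔ ∃ ψ ∈ S, n = ψ.code) :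
    ∃ ρ : Fm, (∀ φ ∈ insert ρ S, φ.IsSentence ∧ φ.IsTrue) ∧
      ∃ τ : Fm, τ.IsPi11 ∧ τ.Closed 1 0 ∧ (∀ n, τ.Holds1 n ↔ ∃ ψ ∈ insert ρ S, n = ψ.code) ∧
        Proves (insert ρ S) (A.RFN τ) := by
  have hb : bot.Closed 1 0 := trivial
  have hR : (A.RFN bot).IsSentence ∧ (A.RFN bot).IsTrue :=
    ⟨A.rfn_closed hb, A.rfn_true hb fun n hn => absurd hn id⟩
  have hT : ∀ φ ∈ insert (A.RFN bot) S, φ.IsSentence ∧ φ.IsTrue := by
    intro φ hφ
    rcases Set.mem_insert_iff.1 hφ with rfl | hφ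
    · exact hR
    · exact hS φ hφ
  set α : Fm := Fm.or (eq (var 0) (numeral (A.RFN bot).code)) α₀ with hα
  have hαa : α.Arith := by
    simp only [hα, arith_or]
    exact ⟨trivial, ha⟩
  have hαc : α.Closed 1 0 := by
    simp only [hα, closed_or]
    exact ⟨⟨show (0 : ℕ) < 1 by omega, numeral_closed _ _⟩, hc⟩
  have hαd : ∀ n, α.Holds1 n ↔ ∃ ψ ∈ insert (A.RFN bot) S, n = ψ.code := by
    intro n
    have : α.Holds1 n ↔ n = (A.RFN bot).code ∨ α₀.Holds1 n := by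
      unfold Fm.Holds1
      simp only [hα, sat_or, sat_eq, val_numeral, Tm.val_var, push_zero]
    rw [this, hα₀]
    constructor
    · rintro (h | ⟨ψ, hψ, h⟩)
      · exact ⟨_, Set.mem_insert _ _, h⟩
      · exact ⟨ψ, Set.mem_insert_of_mem _ hψ, h⟩
    · rintro ⟨ψ, hψ, h⟩
      rcases Set.mem_insert_iff.1 hψ with rfl | hψ
      · exact Or.inl h
      · exact Or.inr ⟨ψ, hψ, h⟩
  have hRα : (A.RFN α).IsTrue := by
    refine A.rfn_true hαc fun n hn => ?_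
    obtain ⟨ψ, hψ, rfl⟩ := (hαd n).1 hn
    exact ⟨ψ, (hT ψ hψ).1, (hT ψ hψ).2, rfl⟩
  refine ⟨A.RFN bot, hT, A.tau α, tau_pi11 hαa,
    tau_closed hαc, fun n => ?_, [A.RFN bot], by simp, rfn_tau hαc⟩
  rw [A.sat_tau hαc, hαd]
  exact and_iff_left hRα

end Arithmetization

end Pool.Agent.LibSOA
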