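import Pool.Agent.LibSOA.Deriv
import Pool.Agent.LibSOA.Main

/-! Existence of an arithmetisation, and the arithmetical definition of `Σ¹₁-AC₀`. -/

set_option linter.unreachableTactic false
set_option linter.unusedTactic false

namespace Pool.Agent.LibSOA

attribute [local irreducible] Nat.pair

open Fm Tm

/-! ### Closed defining formulas -/

def Tm.trunc (n : ℕ) (t : Tm) : Tm := t.trav fun i => if i < n then .var i else .zero

def Fm.trunc : Fm → ℕ → ℕ → Fm
  | eq t s, n, _ => eq (t.trunc n) (s.trunc n)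
  | lt t s, n, _ => lt (t.trunc n) (s.trunc n)
  | mem t X, n, m => if X < m then mem (t.trunc n) X else bot
  | bot, _, _ => bot
  | imp φ ψ, n, m => imp (φ.trunc n m) (ψ.trunc n m)
  | all φ, n, m => all (φ.trunc (n + 1) m)
  | allS φ, n, m => allS (φ.trunc n (m + 1))

theorem Tm.closed_trunc (n : ℕ) (t : Tm) : (t.trunc n).Closed n := by
  unfold Tm.trunc
  induction t with
  | var i =>
    simp only [Tm.trav]
    split_ifs with h
    · exact h
    · trivial
  | zero => trivial
  | one => trivial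
  | add t s ht hs => exact ⟨ht, hs⟩
  | mul t s ht hs => exact ⟨ht, hs⟩

theorem Fm.closed_trunc (φ : Fm) : ∀ n m, (φ.trunc n m).Closed n m := by
  induction φ with
  | eq t s => intro n m; exact ⟨t.closed_trunc n, s.closed_trunc n⟩
  | lt t s => intro n m; exact ⟨t.closed_trunc n, s.closed_trunc n⟩
  | mem t X =>
    intro n m
    simp only [Fm.trunc]
    split_ifs with h
    · exact ⟨t.closed_trunc n, h⟩
    · trivial
  | bot => intros; trivial
  | imp φ ψ h1 h2 => intro n m; exact ⟨h1 n m, h2 n m⟩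
  | all φ ih => intro n m; exact ih (n + 1) m
  | allS φ ih => intro n m; exact ih n (m + 1)

theorem Fm.arith_trunc {φ : Fm} (h : φ.Arith) : ∀ n m, (φ.trunc n m).Arith := by
  induction φ with
  | eq t s => intros; trivial
  | lt t s => intros; trivial
  | mem t X =>
    intro n m
    simp only [Fm.trunc]
    split_ifs with h
    · trivial
    · trivial
  | bot => intros; trivial
  | imp φ ψ h1 h2 => intro n m; exact ⟨h1 h.1 n m, h2 h.2 n m⟩
  | all φ ih => intro n m; exact ih h (n + 1) m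
  | allS φ ih => exact absurd h id

theorem Tm.val_trunc (n : ℕ) (t : Tm) (v : ℕ → ℕ) :
    (t.trunc n).val v = t.val (fun i => if i < n then v i else 0) := by
  unfold Tm.trunc
  rw [Tm.val_trav]
  have : (fun i => (if i < n then Tm.var i else Tm.zero).val v) =
      (fun i => if i < n then v i else 0) := by
    funext i
    split_ifs <;> rfl
  rw [this]

theorem Fm.sat_trunc (φ : Fm) : ∀ (n m : ℕ) (v : ℕ → ℕ) (V : ℕ → Set ℕ),
    (φ.trunc n m).Sat v V ↔
      φ.Sat (fun i => if i < n then v i else 0) (fun X => if X < m then V X else ∅) := by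
  induction φ with
  | eq t s => intro n m v V; simp only [Fm.trunc, sat_eq, Tm.val_trunc]
  | lt t s => intro n m v V; simp only [Fm.trunc, sat_lt, Tm.val_trunc]
  | mem t X =>
    intro n m v V
    simp only [Fm.trunc]
    by_cases h : X < m
    · simp only [h, if_true, sat_mem, Tm.val_trunc]
    · simp only [h, if_false, sat_mem, sat_bot]
      simp
  | bot => intro n m v V; exact Iff.rfl
  | imp φ ψ h1 h2 => intro n m v V; simp only [Fm.trunc, sat_imp, h1, h2]
  | all φ ih =>
    intro n m v V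
    simp only [Fm.trunc, sat_all, ih]
    refine forall_congr' fun a => ?_
    have : (fun i => if i < n + 1 then push a v i else 0) =
        push a (fun i => if i < n then v i else 0) := by
      funext i
      cases i with
      | zero => simp
      | succ i => simp
    rw [this]
  | allS φ ih =>
    intro n m v V
    simp only [Fm.trunc, sat_allS, ih]
    refine forall_congr' fun A => ?_
    have : (fun X => if X < m + 1 then push A V X else ∅) =
        push A (fun X => if X < m then V X else ∅) := by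
      funext X
      cases X with
      | zero => simp
      | succ X => simp
    rw [this]

theorem Def1.formula {P : ℕ → Prop} (h : Def1 P) :
    ∃ φ : Fm, (φ.Arith ∧ φ.Closed 1 0) ∧ ∀ a, φ.Holds1 a ↔ P a := by
  obtain ⟨φ, h1, h2⟩ := h
  refine ⟨φ.trunc 1 0, ⟨Fm.arith_trunc h1 _ _, Fm.closed_trunc _ _ _⟩, fun a => ?_⟩
  unfold Fm.Holds1
  rw [Fm.sat_trunc, h2]
  simp

theorem Def2.formula {P : ℕ → ℕ → Prop} (h : Def2 P) :
    ∃ φ : Fm, (φ.Arith ∧ φ.Closed 2 0) ∧ ∀ a b, φ.Holds2 a b ↔ P a b := by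
  obtain ⟨φ, h1, h2⟩ := h
  refine ⟨φ.trunc 2 0, ⟨Fm.arith_trunc h1 _ _, Fm.closed_trunc _ _ _⟩, fun a b => ?_⟩
  unfold Fm.Holds2
  rw [Fm.sat_trunc, h2]
  simp

theorem Def.formulaS {P : ℕ → Set ℕ → Prop} (h : Def fun v V => P (v 0) (V 0)) :
    ∃ φ : Fm, (φ.Arith ∧ φ.Closed 1 1) ∧ ∀ a A, φ.HoldsS a A ↔ P a A := by
  obtain ⟨φ, h1, h2⟩ := h
  refine ⟨φ.trunc 1 1, ⟨Fm.arith_trunc h1 _ _, Fm.closed_trunc _ _ _⟩, fun a A => ?_⟩
  unfold Fm.HoldsS
  rw [Fm.sat_trunc, h2]
  simp

/-! ### The axioms of `Σ¹₁-AC₀` -/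

def cimp (x y : ℕ) : ℕ := Nat.pair 4 (Nat.pair x y)
def cneg (x : ℕ) : ℕ := cimp x (Nat.pair 3 0)
def cand (x y : ℕ) : ℕ := cneg (cimp x (cneg y))
def ciff (x y : ℕ) : ℕ := cand (cimp x y) (cimp y x)
def call (x : ℕ) : ℕ := Nat.pair 5 x
def callS (x : ℕ) : ℕ := Nat.pair 6 x
def cexS (x : ℕ) : ℕ := cneg (callS (cneg x))

section

variable {f g : (ℕ → ℕ) → (ℕ → Set ℕ) → ℕ}

theorem DefF.cimp (hf : DefF f) (hg : DefF g) : DefF fun v V => LibSOA.cimp (f v V) (g v V) :=
  (DefF.const 4).pair (hf.pair hg)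
theorem DefF.cneg (hf : DefF f) : DefF fun v V => LibSOA.cneg (f v V) :=
  hf.cimp (DefF.const _)
theorem DefF.cand (hf : DefF f) (hg : DefF g) : DefF fun v V => LibSOA.cand (f v V) (g v V) :=
  (hf.cimp hg.cneg).cneg
theorem DefF.ciff (hf : DefF f) (hg : DefF g) : DefF fun v V => LibSOA.ciff (f v V) (g v V) :=
  (hf.cimp hg).cand (hg.cimp hf)
theorem DefF.call (hf : DefF f) : DefF fun v V => LibSOA.call (f v V) :=
  (DefF.const 5).pair hf
theorem DefF.callS (hf : DefF f) : DefF fun v V => LibSOA.callS (f v V) :=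
  (DefF.const 6).pair hf
theorem DefF.cexS (hf : DefF f) : DefF fun v V => LibSOA.cexS (f v V) :=
  hf.cneg.callS.cneg

end

/-- The finitely many formulas among the axioms. -/
def FinAx (φ : Fm) : Prop := ∃ ψ ∈ [
    neg (eq (add (var 0) one) zero),
    imp (eq (add (var 0) one) (add (var 1) one)) (eq (var 0) (var 1)),
    eq (add (var 0) zero) (var 0),
    eq (add (var 0) (add (var 1) one)) (add (add (var 0) (var 1)) one),
    eq (mul (var 0) zero) zero,
    eq (mul (var 0) (add (var 1) one)) (add (mul (var 0) (var 1)) (var 0)),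
    neg (lt (var 0) zero),
    Fm.iff (lt (var 0) (add (var 1) one)) (Fm.or (lt (var 0) (var 1)) (eq (var 0) (var 1))),
    indAx], φ = ψ

theorem sigmaInst_iff (φ : Fm) : SigmaInst φ ↔ FinAx φ ∨ (∃ ψ : Fm, ψ.Arith ∧ φ = compAx ψ) ∨
    (∃ η : Fm, η.IsSigma11 ∧ φ = choiceAx η) := by
  unfold FinAx
  constructor
  · intro h
    cases h with
    | comp ψ h => exact Or.inr (Or.inl ⟨ψ, h, rfl⟩)
    | choice η h => exact Or.inr (Or.inr ⟨η, h, rfl⟩)
    | _ => left; simp
  · rintro (⟨ψ, h, rfl⟩ | ⟨ψ, h, rfl⟩ | ⟨η, h, rfl⟩)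
    · simp only [List.mem_cons, List.not_mem_nil, or_false] at h
      rcases h with rfl | rfl | rfl | rfl | rfl | rfl | rfl | rfl | rfl
      · exact .a1
      · exact .a2
      · exact .a3
      · exact .a4
      · exact .a5
      · exact .a6
      · exact .a7
      · exact .a8
      · exact .ind
    · exact .comp ψ h
    · exact .choice η h

theorem def_list (L : List ℕ) : Def1 fun x => ∃ y ∈ L, x = y := by
  induction L with
  | nil => exact Def.not Def.true |>.congr fun v V => by simp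
  | cons a L ih =>
    have : Def fun v _ => v 0 = a ∨ ∃ y ∈ L, v 0 = y := Def.or (Def.eq (DefF.var 0) (DefF.const a)) ih
    exact this.congr fun v V => by simp

theorem def_finAx : Def1 fun x => ∃ φ : Fm, FinAx φ ∧ x = φ.code := by
  unfold FinAx
  generalize hL : ([
    neg (eq (add (var 0) one) zero),
    imp (eq (add (var 0) one) (add (var 1) one)) (eq (var 0) (var 1)),
    eq (add (var 0) zero) (var 0),
    eq (add (var 0) (add (var 1) one)) (add (add (var 0) (var 1)) one),
    eq (mul (var 0) zero) zero,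
    eq (mul (var 0) (add (var 1) one)) (add (mul (var 0) (var 1)) (var 0)),
    neg (lt (var 0) zero),
    Fm.iff (lt (var 0) (add (var 1) one)) (Fm.or (lt (var 0) (var 1)) (eq (var 0) (var 1))),
    indAx] : List Fm) = L
  refine (def_list (L.map Fm.code)).congr fun v V => ?_
  constructor
  · rintro ⟨y, hy, h⟩
    obtain ⟨ψ, hψ, rfl⟩ := List.mem_map.1 hy
    exact ⟨ψ, ⟨ψ, hψ, rfl⟩, h⟩
  · rintro ⟨φ, ⟨ψ, hψ, rfl⟩, h⟩
    exact ⟨_, List.mem_map_of_mem hψ, h⟩

theorem code_cimp (φ ψ : Fm) : (imp φ ψ).code = cimp φ.code ψ.code := rfl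
theorem code_cneg (φ : Fm) : (neg φ).code = cneg φ.code := rfl
theorem code_cand (φ ψ : Fm) : (Fm.and φ ψ).code = cand φ.code ψ.code := rfl
theorem code_ciff (φ ψ : Fm) : (Fm.iff φ ψ).code = ciff φ.code ψ.code := rfl
theorem code_call (φ : Fm) : (all φ).code = call φ.code := rfl
theorem code_callS (φ : Fm) : (allS φ).code = callS φ.code := rfl
theorem code_cexS (φ : Fm) : (exS φ).code = cexS φ.code := rfl

def sC (c x : ℕ) : Prop := ∃ a, ∃ b, IsAr a ∧ LiftS 0 a b ∧ x = cexS (call (ciff c b))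
def sD (c x : ℕ) : Prop := ∃ a, ∃ b, IsAr a ∧ LiftS 1 (cexS a) b ∧
  x = cimp (call (cexS (cexS a))) (cexS (call (cexS (cand c b))))

def fmC : Fm := mem (var 0) 0
def fmD : Fm := all (Fm.iff (mem (var 0) 0) (mem (pairTm (var 0) (var 1)) 1))

theorem compAx_code (φ : Fm) : (compAx φ).code = cexS (call (ciff fmC.code (φ.liftS 0).code)) := by
  unfold compAx
  rw [code_cexS, code_call, code_ciff]
  rfl
theorem choiceAx_code (η : Fm) : (choiceAx η).code = cimp (call (cexS η.code))
    (cexS (call (cexS (cand fmD.code (η.liftS 1).code)))) := by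
  unfold choiceAx
  rw [code_cimp, code_call, code_cexS, code_cexS, code_call, code_cexS, code_cand]
  rfl

def sInst (x : ℕ) : Prop := (∃ φ : Fm, FinAx φ ∧ x = φ.code) ∨ sC fmC.code x ∨ sD fmD.code x

theorem def_sInst : Def1 sInst := by
  have h0 := def_finAx
  have h1 := def_IsAr
  have h2 := def_LiftS
  have h3 : ∀ c, Def1 (sC c) := by
    intro c
    unfold Def1 sC
    repeat' first
      | exact DefF.const _
      | exact DefF.var _
      | exact Def.true
      | apply h1.comp
      | apply h2.comp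
      | apply DefF.cexS
      | apply DefF.call
      | apply DefF.ciff
      | apply Def.ex
      | apply Def.all
      | apply Def.iff
      | apply Def.not
      | apply Def.imp
      | apply Def.or
      | apply Def.and
      | apply Def.lt
      | apply Def.le
      | apply Def.eq
      | apply Def.mem
      | apply DefF.add
      | apply DefF.mul
      | apply DefF.pair
  have h4 : ∀ c, Def1 (sD c) := by
    intro c
    unfold Def1 sD
    repeat' first
      | exact DefF.const _
      | exact DefF.var _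
      | exact Def.true
      | apply h1.comp
      | apply h2.comp
      | apply DefF.cimp
      | apply DefF.cexS
      | apply DefF.call
      | apply DefF.cand
      | apply Def.ex
      | apply Def.all
      | apply Def.iff
      | apply Def.not
      | apply Def.imp
      | apply Def.or
      | apply Def.and
      | apply Def.lt
      | apply Def.le
      | apply Def.eq
      | apply Def.mem
      | apply DefF.add
      | apply DefF.mul
      | apply DefF.pair
  exact Def.or h0 (Def.or (h3 _) (h4 _))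

theorem sInst_iff (x : ℕ) : sInst x ↔ ∃ φ : Fm, SigmaInst φ ∧ x = φ.code := by
  unfold sInst
  constructor
  · rintro (⟨φ, h, rfl⟩ | ⟨a, b, h1, h2, rfl⟩ | ⟨a, b, h1, h2, rfl⟩)
    · exact ⟨φ, (sigmaInst_iff φ).2 (Or.inl h), rfl⟩
    · obtain ⟨ψ, h3, rfl⟩ := (isAr_iff _).1 h1
      obtain ⟨ψ', h4, rfl⟩ := (liftS_iff _ _ _).1 h2
      obtain rfl := Fm.code_injective h4
      exact ⟨compAx ψ, .comp ψ h3, (compAx_code ψ).symm⟩
    · obtain ⟨ψ, h3, rfl⟩ := (isAr_iff _).1 h1
      obtain ⟨ψ', h4, rfl⟩ := (liftS_iff _ _ _).1 h2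
      rw [← code_cexS] at h4
      obtain rfl := Fm.code_injective h4
      refine ⟨choiceAx (exS ψ), .choice _ ⟨ψ, h3, rfl⟩, ?_⟩
      rw [choiceAx_code, code_cexS]
  · rintro ⟨φ, h, rfl⟩
    rcases (sigmaInst_iff φ).1 h with h' | ⟨ψ, h', rfl⟩ | ⟨η, ⟨ψ, h', rfl⟩, rfl⟩
    · exact Or.inl ⟨φ, h', rfl⟩
    · exact Or.inr (Or.inl ⟨_, _, (isAr_iff _).2 ⟨ψ, h', rfl⟩, (liftS_iff _ _ _).2 ⟨ψ, rfl, rfl⟩,
        compAx_code ψ⟩)
    · refine Or.inr (Or.inr ⟨ψ.code, _, (isAr_iff _).2 ⟨ψ, h', rfl⟩,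
        (liftS_iff _ _ _).2 ⟨exS ψ, code_cexS ψ, rfl⟩, ?_⟩)
      rw [choiceAx_code, code_cexS]

def gR (n a _b : ℕ) : Prop := n = Nat.pair 5 a ∨ n = Nat.pair 6 a
def IsSAx (x : ℕ) : Prop := IsClosed 0 0 x ∧ Ind sInst gR x

theorem def_IsSAx : Def1 IsSAx := by
  have h1 := def_IsClosed
  have h2 : Def3 gR := by
    unfold Def3 gR
    repeat' first
      | exact DefF.const _
      | exact DefF.var _
      | exact Def.true
      | apply Def.ex
      | apply Def.all
      | apply Def.iff
      | apply Def.not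
      | apply Def.imp
      | apply Def.or
      | apply Def.and
      | apply Def.lt
      | apply Def.le
      | apply Def.eq
      | apply Def.mem
      | apply DefF.add
      | apply DefF.mul
      | apply DefF.pair
  have h3 := Def1.ind def_sInst h2
  unfold Def1 IsSAx
  repeat' first
    | exact DefF.const _
    | exact DefF.var _
    | exact Def.true
    | apply h1.comp
    | apply h3.comp
    | apply Def.ex
    | apply Def.all
    | apply Def.iff
    | apply Def.not
    | apply Def.imp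
    | apply Def.or
    | apply Def.and
    | apply Def.lt
    | apply Def.le
    | apply Def.eq
    | apply Def.mem
    | apply DefF.add
    | apply DefF.mul
    | apply DefF.pair

theorem isSAx_iff (x : ℕ) : IsSAx x ↔ ∃ φ ∈ SigmaAC0, x = φ.code := by
  have key : Ind sInst gR x ↔ ∃ φ : Fm, Gen SigmaInst φ ∧ x = φ.code := by
    constructor
    · intro h
      induction h with
      | @base n h =>
        obtain ⟨φ, h1, rfl⟩ := (sInst_iff _).1 h
        exact ⟨φ, .base h1, rfl⟩
      | @step n a b h _ _ iha _ =>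
        obtain ⟨φ, h1, rfl⟩ := iha
        rcases h with rfl | rfl
        · exact ⟨.all φ, .all h1, rfl⟩
        · exact ⟨.allS φ, .allS h1, rfl⟩
    · rintro ⟨φ, h, rfl⟩
      induction h with
      | base h => exact .base ((sInst_iff _).2 ⟨_, h, rfl⟩)
      | all _ ih => exact .step (Or.inl rfl) ih ih
      | allS _ ih => exact .step (Or.inr rfl) ih ih
  unfold IsSAx
  rw [key, isClosed_iff]
  constructor
  · rintro ⟨⟨φ, h1, rfl⟩, ⟨ψ, h2, h3⟩⟩
    obtain rfl := Fm.code_injective h3
    exact ⟨φ, ⟨h1, h2⟩, rfl⟩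
  · rintro ⟨φ, ⟨h1, h2⟩, rfl⟩
    exact ⟨⟨φ, h1, rfl⟩, ⟨φ, h2, rfl⟩⟩

/-! ### Evaluation of terms -/

def asg (L : List ℕ) (i : ℕ) : ℕ := L.getD i 0

theorem asg_cons (a : ℕ) (L : List ℕ) : asg (a :: L) = push a (asg L) := by
  funext i
  cases i <;> rfl

def t3 (v i a : ℕ) : ℕ := Nat.pair v (Nat.pair i a)
theorem t3_inj {v i a v' i' a' : ℕ} : t3 v i a = t3 v' i' a' ↔ v = v' ∧ i = i' ∧ a = a' := by
  simp [t3, Nat.pair_eq_pair]
theorem DefF.t3 {f g h : (ℕ → ℕ) → (ℕ → Set ℕ) → ℕ} (hf : DefF f) (hg : DefF g) (hh : DefF h) :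
    DefF fun v V => LibSOA.t3 (f v V) (g v V) (h v V) := hf.pair (hg.pair hh)

def loA (n : ℕ) : Prop := (∃ i, n = t3 0 i 0) ∨ (∃ a, ∃ l, n = t3 (Nat.pair a l + 1) 0 a)
def loR (n a _b : ℕ) : Prop := ∃ l, ∃ i, ∃ x, ∃ y, a = t3 l i x ∧
  n = t3 (Nat.pair y l + 1) (i + 1) x
def Lookup (v i a : ℕ) : Prop := Ind loA loR (t3 v i a)

theorem def_Lookup : Def3 Lookup := by
  have h1 : Def1 loA := by
    unfold Def1 loA
    repeat' first
      | exact DefF.const _
      | exact DefF.var _
      | exact Def.true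
      | apply DefF.t3
      | apply Def.ex
      | apply Def.all
      | apply Def.iff
      | apply Def.not
      | apply Def.imp
      | apply Def.or
      | apply Def.and
      | apply Def.lt
      | apply Def.le
      | apply Def.eq
      | apply Def.mem
      | apply DefF.add
      | apply DefF.mul
      | apply DefF.pair
  have h2 : Def3 loR := by
    unfold Def3 loR
    repeat' first
      | exact DefF.const _
      | exact DefF.var _
      | exact Def.true
      | apply DefF.t3
      | apply Def.ex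
      | apply Def.all
      | apply Def.iff
      | apply Def.not
      | apply Def.imp
      | apply Def.or
      | apply Def.and
      | apply Def.lt
      | apply Def.le
      | apply Def.eq
      | apply Def.mem
      | apply DefF.add
      | apply DefF.mul
      | apply DefF.pair
  have h := Def1.ind h1 h2
  unfold Def3 Lookup
  repeat' first
    | exact DefF.const _
    | exact DefF.var _
    | exact Def.true
    | apply h.comp
    | apply DefF.t3
    | apply Def.ex
    | apply Def.all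
    | apply Def.iff
    | apply Def.not
    | apply Def.imp
    | apply Def.or
    | apply Def.and
    | apply Def.lt
    | apply Def.le
    | apply Def.eq
    | apply Def.mem
    | apply DefF.add
    | apply DefF.mul
    | apply DefF.pair

theorem lookup_iff (L : List ℕ) (i a : ℕ) : Lookup (lcode L) i a ↔ a = asg L i := by
  constructor
  · intro h
    have key : ∀ n, Ind loA loR n → ∀ L i a, n = t3 (lcode L) i a → a = asg L i := by
      intro n hn
      induction hn with
      | @base n h =>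
        intro L i a h'
        rcases h with ⟨i', h⟩ | ⟨a', l, h⟩
        · rw [h', t3_inj] at h
          obtain ⟨h1, rfl, rfl⟩ := h
          cases L with
          | nil => rfl
          | cons b L => simp [lcode] at h1
        · rw [h', t3_inj] at h
          obtain ⟨h1, rfl, rfl⟩ := h
          cases L with
          | nil => simp [lcode] at h1
          | cons b L =>
            simp only [lcode, Nat.add_right_cancel_iff, Nat.pair_eq_pair] at h1
            rw [← h1.1]
            rfl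
      | @step n a b h _ _ iha _ =>
        intro L i a' h'
        obtain ⟨l, i', x, y, h1, h2⟩ := h
        rw [h', t3_inj] at h2
        obtain ⟨h3, rfl, rfl⟩ := h2
        cases L with
        | nil => simp [lcode] at h3
        | cons b L =>
          simp only [lcode, Nat.add_right_cancel_iff, Nat.pair_eq_pair] at h3
          obtain ⟨rfl, rfl⟩ := h3
          have h4 := iha L i' _ h1
          exact h4
    exact key _ h _ _ _ rfl
  · rintro rfl
    unfold Lookup
    induction L generalizing i with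
    | nil => exact .base (Or.inl ⟨i, rfl⟩)
    | cons b L ih =>
      cases i with
      | zero => exact .base (Or.inr ⟨b, lcode L, rfl⟩)
      | succ i => exact .step ⟨lcode L, i, _, b, rfl, rfl⟩ (ih i) (ih i)

def vaA (n : ℕ) : Prop := (∃ v, ∃ i, ∃ a, Lookup v i a ∧ n = t3 v (Nat.pair 0 i) a) ∨
  (∃ v, n = t3 v (Nat.pair 1 0) 0) ∨ (∃ v, n = t3 v (Nat.pair 2 0) 1)
def vaR (n a b : ℕ) : Prop := ∃ v, ∃ t, ∃ s, ∃ x, ∃ y, a = t3 v t x ∧ b = t3 v s y ∧
  (n = t3 v (Nat.pair 3 (Nat.pair t s)) (x + y) ∨ n = t3 v (Nat.pair 4 (Nat.pair t s)) (x * y))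
def Val (v t a : ℕ) : Prop := Ind vaA vaR (t3 v t a)

theorem def_Val : Def3 Val := by
  have h0 := def_Lookup
  have h1 : Def1 vaA := by
    unfold Def1 vaA
    repeat' first
      | exact DefF.const _
      | exact DefF.var _
      | exact Def.true
      | apply h0.comp
      | apply DefF.t3
      | apply Def.ex
      | apply Def.all
      | apply Def.iff
      | apply Def.not
      | apply Def.imp
      | apply Def.or
      | apply Def.and
      | apply Def.lt
      | apply Def.le
      | apply Def.eq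
      | apply Def.mem
      | apply DefF.add
      | apply DefF.mul
      | apply DefF.pair
  have h2 : Def3 vaR := by
    unfold Def3 vaR
    repeat' first
      | exact DefF.const _
      | exact DefF.var _
      | exact Def.true
      | apply DefF.t3
      | apply Def.ex
      | apply Def.all
      | apply Def.iff
      | apply Def.not
      | apply Def.imp
      | apply Def.or
      | apply Def.and
      | apply Def.lt
      | apply Def.le
      | apply Def.eq
      | apply Def.mem
      | apply DefF.add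
      | apply DefF.mul
      | apply DefF.pair
  have h := Def1.ind h1 h2
  unfold Def3 Val
  repeat' first
    | exact DefF.const _
    | exact DefF.var _
    | exact Def.true
    | apply h.comp
    | apply DefF.t3
    | apply Def.ex
    | apply Def.all
    | apply Def.iff
    | apply Def.not
    | apply Def.imp
    | apply Def.or
    | apply Def.and
    | apply Def.lt
    | apply Def.le
    | apply Def.eq
    | apply Def.mem
    | apply DefF.add
    | apply DefF.mul
    | apply DefF.pair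

theorem val_iff (L : List ℕ) (x a : ℕ) :
    Val (lcode L) x a ↔ ∃ t : Tm, x = t.code ∧ a = t.val (asg L) := by
  constructor
  · intro h
    have key : ∀ n, Ind vaA vaR n → ∀ x a, n = t3 (lcode L) x a →
        ∃ t : Tm, x = t.code ∧ a = t.val (asg L) := by
      intro n hn
      induction hn with
      | @base n h =>
        intro x a h'
        rcases h with ⟨v, i, a', h1, h2⟩ | ⟨v, h2⟩ | ⟨v, h2⟩
        · rw [h', t3_inj] at h2
          obtain ⟨rfl, rfl, rfl⟩ := h2
          exact ⟨.var i, rfl, (lookup_iff _ _ _).1 h1⟩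
        · rw [h', t3_inj] at h2
          obtain ⟨rfl, rfl, rfl⟩ := h2
          exact ⟨.zero, rfl, rfl⟩
        · rw [h', t3_inj] at h2
          obtain ⟨rfl, rfl, rfl⟩ := h2
          exact ⟨.one, rfl, rfl⟩
      | @step n a b h _ _ iha ihb =>
        intro x a' h'
        obtain ⟨v, t, s, x', y', h1, h2, h3 | h3⟩ := h
        · rw [h', t3_inj] at h3
          obtain ⟨rfl, rfl, rfl⟩ := h3
          obtain ⟨t, rfl, rfl⟩ := iha _ _ h1
          obtain ⟨s, rfl, rfl⟩ := ihb _ _ h2
          exact ⟨.add t s, rfl, rfl⟩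
        · rw [h', t3_inj] at h3
          obtain ⟨rfl, rfl, rfl⟩ := h3
          obtain ⟨t, rfl, rfl⟩ := iha _ _ h1
          obtain ⟨s, rfl, rfl⟩ := ihb _ _ h2
          exact ⟨.mul t s, rfl, rfl⟩
    exact key _ h _ _ rfl
  · rintro ⟨t, rfl, rfl⟩
    unfold Val
    induction t with
    | var i => exact .base (Or.inl ⟨_, i, _, (lookup_iff _ _ _).2 rfl, rfl⟩)
    | zero => exact .base (Or.inr (Or.inl ⟨_, rfl⟩))
    | one => exact .base (Or.inr (Or.inr ⟨_, rfl⟩))
    | add t s ht hs => exact .step ⟨_, _, _, _, _, rfl, rfl, Or.inl rfl⟩ ht hs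
    | mul t s ht hs => exact .step ⟨_, _, _, _, _, rfl, rfl, Or.inr rfl⟩ ht hs

/-! ### The truth predicate -/

/-- The clauses of Tarski's definition of truth, for the odd part of `X` as a satisfaction class
for arithmetical formulas about the even part of `X`. -/
def Tarski (X : Set ℕ) : Prop :=
  (∀ v, ∀ t, ∀ s, ∀ a, ∀ b, Val v t a → Val v s b →
    (2 * Nat.pair (Nat.pair 0 (Nat.pair t s)) v + 1 ∈ X ↔ a = b)) ∧
  (∀ v, ∀ t, ∀ s, ∀ a, ∀ b, Val v t a → Val v s b →
    (2 * Nat.pair (Nat.pair 1 (Nat.pair t s)) v + 1 ∈ X ↔ a < b)) ∧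
  (∀ v, ∀ t, ∀ Z, ∀ a, Val v t a →
    (2 * Nat.pair (Nat.pair 2 (Nat.pair t Z)) v + 1 ∈ X ↔ 2 * a ∈ X)) ∧
  (∀ v, ¬ (2 * Nat.pair (Nat.pair 3 0) v + 1 ∈ X)) ∧
  (∀ v, ∀ x, ∀ y, IsAr x → IsAr y → (2 * Nat.pair (Nat.pair 4 (Nat.pair x y)) v + 1 ∈ X ↔
    (2 * Nat.pair x v + 1 ∈ X → 2 * Nat.pair y v + 1 ∈ X))) ∧
  (∀ v, ∀ x, IsAr x → (2 * Nat.pair (Nat.pair 5 x) v + 1 ∈ X ↔
    ∀ a, 2 * Nat.pair x (Nat.pair a v + 1) + 1 ∈ X))

def TrS (x : ℕ) (X : Set ℕ) : Prop := ∃ y, x = Nat.pair 6 y ∧ (Tarski X → 2 * Nat.pair y 0 + 1 ∈ X)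

theorem def_TrS : Def fun v V => TrS (v 0) (V 0) := by
  have h1 := def_Val
  have h2 := def_IsAr
  unfold TrS Tarski
  repeat' first
    | exact DefF.const _
    | exact DefF.var _
    | exact Def.true
    | apply h1.comp
    | apply h2.comp
    | apply Def.ex
    | apply Def.all
    | apply Def.iff
    | apply Def.not
    | apply Def.imp
    | apply Def.or
    | apply Def.and
    | apply Def.lt
    | apply Def.le
    | apply Def.eq
    | apply Def.mem
    | apply DefF.add
    | apply DefF.mul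
    | apply DefF.pair

theorem tarski_sat {X : Set ℕ} (h : Tarski X) {φ : Fm} (hφ : φ.Arith) : ∀ L : List ℕ,
    (2 * Nat.pair φ.code (lcode L) + 1 ∈ X ↔ φ.Sat (asg L) (fun _ => {n | 2 * n ∈ X})) := by
  obtain ⟨h1, h2, h3, h4, h5, h6⟩ := h
  induction φ with
  | eq t s =>
    intro L
    exact h1 _ _ _ _ _ ((val_iff _ _ _).2 ⟨t, rfl, rfl⟩) ((val_iff _ _ _).2 ⟨s, rfl, rfl⟩)
  | lt t s =>
    intro L
    exact h2 _ _ _ _ _ ((val_iff _ _ _).2 ⟨t, rfl, rfl⟩) ((val_iff _ _ _).2 ⟨s, rfl, rfl⟩)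
  | mem t Z =>
    intro L
    exact h3 _ _ Z _ ((val_iff _ _ _).2 ⟨t, rfl, rfl⟩)
  | bot =>
    intro L
    exact iff_of_false (h4 _) id
  | imp φ ψ ihφ ihψ =>
    intro L
    have := h5 (lcode L) φ.code ψ.code ((isAr_iff _).2 ⟨φ, hφ.1, rfl⟩)
      ((isAr_iff _).2 ⟨ψ, hφ.2, rfl⟩)
    rw [ihφ hφ.1, ihψ hφ.2] at this
    exact this
  | all φ ih =>
    intro L
    have := h6 (lcode L) φ.code ((isAr_iff _).2 ⟨φ, hφ, rfl⟩)
    refine this.trans ?_
    refine forall_congr' fun a => ?_
    have h7 := ih hφ (a :: L)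
    rw [asg_cons] at h7
    exact h7
  | allS φ ih => exact absurd hφ id

/-- The set that codes `A` together with its satisfaction class. -/
def full (A : Set ℕ) : Set ℕ :=
  {k | (∃ n ∈ A, k = 2 * n) ∨
    ∃ (φ : Fm) (L : List ℕ), φ.Arith ∧ φ.Sat (asg L) (fun _ => A) ∧
      k = 2 * Nat.pair φ.code (lcode L) + 1}

theorem even_full (A : Set ℕ) (n : ℕ) : 2 * n ∈ full A ↔ n ∈ A := by
  constructor
  · rintro (⟨m, hm, h⟩ | ⟨φ, L, _, _, h⟩)
    · obtain rfl : n = m := by omega
      exact hm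
    · omega
  · intro h
    exact Or.inl ⟨n, h, rfl⟩

theorem odd_full (A : Set ℕ) {φ : Fm} (hφ : φ.Arith) (L : List ℕ) :
    2 * Nat.pair φ.code (lcode L) + 1 ∈ full A ↔ φ.Sat (asg L) (fun _ => A) := by
  constructor
  · rintro (⟨m, hm, h⟩ | ⟨ψ, M, _, h1, h⟩)
    · omega
    · have h2 : Nat.pair φ.code (lcode L) = Nat.pair ψ.code (lcode M) := by omega
      rw [Nat.pair_eq_pair] at h2
      obtain rfl := Fm.code_injective h2.1
      obtain rfl := lcode_inj h2.2
      exact h1
  · intro h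
    exact Or.inr ⟨φ, L, hφ, h, rfl⟩

theorem tarski_full (A : Set ℕ) : Tarski (full A) := by
  refine ⟨?_, ?_, ?_, ?_, ?_, ?_⟩
  · intro v t s a b h1 h2
    obtain ⟨L, rfl⟩ := lcode_surj v
    obtain ⟨t, rfl, rfl⟩ := (val_iff _ _ _).1 h1
    obtain ⟨s, rfl, rfl⟩ := (val_iff _ _ _).1 h2
    exact odd_full A (φ := .eq t s) trivial L
  · intro v t s a b h1 h2
    obtain ⟨L, rfl⟩ := lcode_surj v
    obtain ⟨t, rfl, rfl⟩ := (val_iff _ _ _).1 h1
    obtain ⟨s, rfl, rfl⟩ := (val_iff _ _ _).1 h2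
    exact odd_full A (φ := .lt t s) trivial L
  · intro v t Z a h1
    obtain ⟨L, rfl⟩ := lcode_surj v
    obtain ⟨t, rfl, rfl⟩ := (val_iff _ _ _).1 h1
    rw [even_full]
    exact odd_full A (φ := .mem t Z) trivial L
  · intro v
    obtain ⟨L, rfl⟩ := lcode_surj v
    exact fun h => (odd_full A (φ := .bot) trivial L).1 h
  · intro v x y hx hy
    obtain ⟨L, rfl⟩ := lcode_surj v
    obtain ⟨φ, h1, rfl⟩ := (isAr_iff _).1 hx
    obtain ⟨ψ, h2, rfl⟩ := (isAr_iff _).1 hy
    rw [odd_full A h1, odd_full A h2]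
    exact odd_full A (φ := .imp φ ψ) ⟨h1, h2⟩ L
  · intro v x hx
    obtain ⟨L, rfl⟩ := lcode_surj v
    obtain ⟨φ, h1, rfl⟩ := (isAr_iff _).1 hx
    refine (odd_full A (φ := .all φ) h1 L).trans ?_
    refine forall_congr' fun a => ?_
    have := odd_full A h1 (a :: L)
    rw [asg_cons] at this
    exact this.symm

theorem trS_correct {φ : Fm} (hs : φ.IsSentence) (hp : φ.IsPi11) :
    (∀ X, TrS φ.code X) ↔ φ.IsTrue := by
  obtain ⟨θ, hθ, rfl⟩ := hp
  have hc : θ.Closed 0 1 := hs
  have e : ∀ A : Set ℕ, (θ.Sat (asg []) (fun _ => A) ↔ θ.Sat (fun _ => 0) (push A fun _ => ∅)) := by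
    intro A
    refine Fm.sat_congr hc (fun i hi => absurd hi (by omega)) (fun X hX => ?_)
    obtain rfl : X = 0 := by omega
    rfl
  constructor
  · intro h A
    obtain ⟨y, h1, h2⟩ := h (full A)
    have h3 : Nat.pair 6 θ.code = Nat.pair 6 y := h1
    rw [Nat.pair_eq_pair] at h3
    obtain ⟨_, rfl⟩ := h3
    have h4 := h2 (tarski_full A)
    exact (e A).1 ((odd_full A hθ []).1 h4)
  · intro h X
    refine ⟨θ.code, rfl, fun hX => ?_⟩
    exact (tarski_sat hX hθ []).2 ((e _).2 (h _))

/-! ### Conclusion -/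

def IsPiS (x : ℕ) : Prop := IsClosed 0 0 x ∧ ∃ y, IsAr y ∧ x = Nat.pair 6 y

theorem def_IsPiS : Def1 IsPiS := by
  have h1 := def_IsClosed
  have h2 := def_IsAr
  unfold Def1 IsPiS
  repeat' first
    | exact DefF.const _
    | exact DefF.var _
    | exact Def.true
    | apply h1.comp
    | apply h2.comp
    | apply Def.ex
    | apply Def.all
    | apply Def.iff
    | apply Def.not
    | apply Def.imp
    | apply Def.or
    | apply Def.and
    | apply Def.lt
    | apply Def.le
    | apply Def.eq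
    | apply Def.mem
    | apply DefF.add
    | apply DefF.mul
    | apply DefF.pair

theorem isPiS_iff (x : ℕ) : IsPiS x ↔ ∃ φ : Fm, φ.IsSentence ∧ φ.IsPi11 ∧ x = φ.code := by
  unfold IsPiS
  rw [isClosed_iff]
  constructor
  · rintro ⟨⟨φ, h1, rfl⟩, y, h2, h3⟩
    obtain ⟨θ, h4, rfl⟩ := (isAr_iff _).1 h2
    obtain rfl := Fm.code_injective (a₂ := .allS θ) h3
    exact ⟨_, h1, ⟨θ, h4, rfl⟩, rfl⟩
  · rintro ⟨φ, h1, ⟨θ, h4, rfl⟩, rfl⟩
    exact ⟨⟨_, h1, rfl⟩, θ.code, (isAr_iff _).2 ⟨θ, h4, rfl⟩, rfl⟩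

theorem exists_arithmetization : Nonempty Arithmetization := by
  obtain ⟨der, hder, hder'⟩ := Def2.formula def_D
  have hm : Def2 fun y p => LMem y p := def_LMem
  obtain ⟨hyp, hhyp, hhyp'⟩ := Def2.formula hm
  obtain ⟨pi, hpi, hpi'⟩ := Def1.formula def_IsPiS
  obtain ⟨tr, htr, htr'⟩ := Def.formulaS def_TrS
  refine ⟨⟨der, hyp, pi, tr, hder, hhyp, hpi, htr, ?_, ?_, ?_, ?_⟩⟩
  · intro p x h
    obtain ⟨Γ, φ, rfl, rfl, h1⟩ := (D_iff _ _).1 ((hder' _ _).1 h)
    refine ⟨Γ, φ, h1, rfl, fun ψ hψ => (hhyp' _ _).2 ?_⟩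
    rw [fcodes, lMem_iff]
    exact List.mem_map_of_mem hψ
  · intro Γ φ h
    refine ⟨fcodes Γ, (hder' _ _).2 ((D_iff _ _).2 ⟨Γ, φ, rfl, rfl, h⟩), fun y hy => ?_⟩
    have := (hhyp' _ _).1 hy
    rw [fcodes, lMem_iff, List.mem_map] at this
    obtain ⟨ψ, h1, h2⟩ := this
    exact ⟨ψ, h1, h2.symm⟩
  · intro x
    rw [hpi', isPiS_iff]
  · intro φ h1 h2
    rw [← trS_correct h1 h2]
    exact forall_congr' fun X => htr' _ _

theorem exists_sigmaAC0_formula : ∃ α : Fm, (α.Arith ∧ α.Closed 1 0) ∧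
    ∀ n, α.Holds1 n ↔ ∃ ψ ∈ SigmaAC0, n = ψ.code := by
  obtain ⟨α, h1, h2⟩ := Def1.formula def_IsSAx
  exact ⟨α, h1, fun n => (h2 n).trans (isSAx_iff n)⟩

end Pool.Agent.LibSOA
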