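import Pool.Agent.LibSOA.Defin

/-! Inductively defined sets with arithmetical rules are arithmetical. -/

namespace Pool.Agent.LibSOA

open Fm Tm

theorem defF2_beta : DefF2 Nat.beta := by
  have h : Def fun v _ => ∃ a, ∃ b, ∃ q, v 1 = Nat.pair a b ∧ v 0 < (v 2 + 1) * b + 1 ∧
      a = ((v 2 + 1) * b + 1) * q + v 0 := by
    repeat' first
      | exact DefF.var _
      | exact DefF.const _
      | apply Def.ex
      | apply Def.or
      | apply Def.and
      | apply Def.not
      | apply Def.lt
      | apply Def.eq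
      | apply DefF.add
      | apply DefF.mul
      | apply DefF.pair
  refine h.congr fun v V => ?_
  unfold Nat.beta
  constructor
  · rintro ⟨a, b, q, h1, h2, h3⟩
    rw [h1, Nat.unpair_pair]
    simp only
    rw [h3, Nat.mul_add_mod, Nat.mod_eq_of_lt h2]
  · intro h
    refine ⟨(v 1).unpair.1, (v 1).unpair.2, (v 1).unpair.1 / ((v 2 + 1) * (v 1).unpair.2 + 1),
      (Nat.pair_unpair _).symm, ?_, ?_⟩
    · rw [h]
      exact Nat.mod_lt _ (Nat.succ_pos _)
    · rw [h]
      exact (Nat.div_add_mod _ _).symm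

/-- The set generated from `A` by the rules `a, b ⟹ n` for `R n a b`. -/
inductive Ind (A : ℕ → Prop) (R : ℕ → ℕ → ℕ → Prop) : ℕ → Prop
  | base {n : ℕ} : A n → Ind A R n
  | step {n a b : ℕ} : R n a b → Ind A R a → Ind A R b → Ind A R n

section

variable (A : ℕ → Prop) (R : ℕ → ℕ → ℕ → Prop)

/-- Entry number `i` of the sequence `s` is justified by the previous ones. -/
def Just (s : ℕ → ℕ) (i : ℕ) : Prop := A (s i) ∨ ∃ j < i, ∃ l < i, R (s i) (s j) (s l)

theorem just_ind {s : ℕ → ℕ} {k : ℕ} (h : ∀ i ≤ k, Just A R s i) : ∀ i ≤ k, Ind A R (s i) := by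
  intro i
  induction i using Nat.strong_induction_on with
  | _ i ih =>
    intro hi
    rcases h i hi with h1 | ⟨j, hj, l, hl, h1⟩
    · exact .base h1
    · exact .step h1 (ih j hj (by omega)) (ih l hl (by omega))

theorem ind_just {n : ℕ} (h : Ind A R n) : ∃ (s : ℕ → ℕ) (k : ℕ), s k = n ∧
    ∀ i ≤ k, Just A R s i := by
  induction h with
  | @base n h =>
    refine ⟨fun _ => n, 0, rfl, fun i hi => Or.inl h⟩
  | @step n a b h _ _ iha ihb =>
    obtain ⟨s, k, hs, h1⟩ := iha
    obtain ⟨t, l, ht, h2⟩ := ihb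
    refine ⟨fun i => if i ≤ k then s i else if i ≤ k + l + 1 then t (i - (k + 1)) else n,
      k + l + 2, by simp [show ¬ (k + l + 2 ≤ k) by omega], fun i hi => ?_⟩
    by_cases hik : i ≤ k
    · rcases h1 i hik with h3 | ⟨j, hj, m, hm, h3⟩
      · left; simpa [hik] using h3
      · right
        refine ⟨j, hj, m, hm, ?_⟩
        simpa [hik, show j ≤ k by omega, show m ≤ k by omega] using h3
    · by_cases hil : i ≤ k + l + 1
      · rcases h2 (i - (k + 1)) (by omega) with h3 | ⟨j, hj, m, hm, h3⟩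
        · left; simpa [hik, hil] using h3
        · right
          refine ⟨j + (k + 1), by omega, m + (k + 1), by omega, ?_⟩
          simpa [hik, hil, show j + (k + 1) ≤ k + l + 1 by omega,
            show m + (k + 1) ≤ k + l + 1 by omega, show ¬ (j + (k + 1) ≤ k) by omega,
            show ¬ (m + (k + 1) ≤ k) by omega] using h3
      · right
        refine ⟨k, by omega, k + l + 1, by omega, ?_⟩
        have e1 : k + l + 1 - (k + 1) = l := by omega
        simpa [hik, hil, hs, ht, e1, show ¬ (k + l + 1 ≤ k) by omega] using h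

theorem ind_iff (n : ℕ) : Ind A R n ↔ ∃ c, ∃ k, Nat.beta c k = n ∧
    ∀ i, i ≤ k → (A (Nat.beta c i) ∨ ∃ j, j < i ∧ ∃ l, l < i ∧
      R (Nat.beta c i) (Nat.beta c j) (Nat.beta c l)) := by
  constructor
  · intro h
    obtain ⟨s, k, hs, h1⟩ := ind_just A R h
    set L : List ℕ := (List.range (k + 1)).map s with hL
    have hβ : ∀ i ≤ k, Nat.beta (Nat.unbeta L) i = s i := by
      intro i hi
      have hlen : i < L.length := by simp [hL]; omega
      have := Nat.beta_unbeta_coe L ⟨i, hlen⟩
      rw [this]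
      simp [hL]
    refine ⟨Nat.unbeta L, k, by rw [hβ k le_rfl, hs], fun i hi => ?_⟩
    rw [hβ i hi]
    rcases h1 i hi with h3 | ⟨j, hj, m, hm, h3⟩
    · exact Or.inl h3
    · refine Or.inr ⟨j, hj, m, hm, ?_⟩
      rwa [hβ j (by omega), hβ m (by omega)]
  · rintro ⟨c, k, rfl, h⟩
    refine just_ind A R (s := fun i => Nat.beta c i) (k := k) (fun i hi => ?_) k le_rfl
    rcases h i hi with h3 | ⟨j, hj, m, hm, h3⟩
    · exact Or.inl h3
    · exact Or.inr ⟨j, hj, m, hm, h3⟩

end

theorem Def1.ind {A : ℕ → Prop} {R : ℕ → ℕ → ℕ → Prop} (hA : Def1 A) (hR : Def3 R) :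
    Def1 (Ind A R) := by
  have h : Def fun v _ => ∃ c, ∃ k, Nat.beta c k = v 0 ∧
    ∀ i, i ≤ k → (A (Nat.beta c i) ∨ ∃ j, j < i ∧ ∃ l, l < i ∧
      R (Nat.beta c i) (Nat.beta c j) (Nat.beta c l)) := by
    repeat' first
      | exact DefF.var _
      | exact DefF.const _
      | apply Def.ex
      | apply Def.all
      | apply Def.imp
      | apply Def.or
      | apply Def.and
      | apply Def.not
      | apply Def.lt
      | apply Def.le
      | apply Def.eq
      | apply hA.comp
      | apply hR.comp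
      | apply DefF.add
      | apply DefF.mul
      | apply DefF.pair
      | apply defF2_beta.comp
  exact h.congr fun v V => (ind_iff A R (v 0)).symm

end Pool.Agent.LibSOA
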