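import Pool.Agent.LibSOA.Basic

/-! Semantics of the calculus and identities for substitution. -/

namespace Pool.Agent.LibSOA

@[simp] theorem push_zero {α : Type} (a : α) (v : ℕ → α) : push a v 0 = a := rfl
@[simp] theorem push_succ {α : Type} (a : α) (v : ℕ → α) (n : ℕ) : push a v (n + 1) = v n := rfl

/-! ### Semantics -/

@[simp] theorem Fm.sat_neg (φ : Fm) (v V) : φ.neg.Sat v V ↔ ¬ φ.Sat v V := Iff.rfl
@[simp] theorem Fm.sat_bot (v V) : Fm.bot.Sat v V ↔ False := Iff.rfl
@[simp] theorem Fm.sat_eq (t s : Tm) (v V) : (Fm.eq t s).Sat v V ↔ t.val v = s.val v := Iff.rfl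
@[simp] theorem Fm.sat_lt (t s : Tm) (v V) : (Fm.lt t s).Sat v V ↔ t.val v < s.val v := Iff.rfl
@[simp] theorem Fm.sat_mem (t : Tm) (X : ℕ) (v V) : (Fm.mem t X).Sat v V ↔ t.val v ∈ V X := Iff.rfl
@[simp] theorem Fm.sat_imp (φ ψ : Fm) (v V) :
    (Fm.imp φ ψ).Sat v V ↔ (φ.Sat v V → ψ.Sat v V) := Iff.rfl
@[simp] theorem Fm.sat_all (φ : Fm) (v V) :
    (Fm.all φ).Sat v V ↔ ∀ a, φ.Sat (push a v) V := Iff.rfl
@[simp] theorem Fm.sat_allS (φ : Fm) (v V) :
    (Fm.allS φ).Sat v V ↔ ∀ A, φ.Sat v (push A V) := Iff.rfl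
@[simp] theorem Fm.sat_and (φ ψ : Fm) (v V) : (φ.and ψ).Sat v V ↔ φ.Sat v V ∧ ψ.Sat v V := by
  simp [Fm.and]
@[simp] theorem Fm.sat_or (φ ψ : Fm) (v V) : (φ.or ψ).Sat v V ↔ φ.Sat v V ∨ ψ.Sat v V := by
  simp [Fm.or, or_iff_not_imp_left]
@[simp] theorem Fm.sat_iff (φ ψ : Fm) (v V) : (φ.iff ψ).Sat v V ↔ (φ.Sat v V ↔ ψ.Sat v V) := by
  simp [Fm.iff, iff_def]
@[simp] theorem Fm.sat_ex (φ : Fm) (v V) : φ.ex.Sat v V ↔ ∃ a, φ.Sat (push a v) V := by
  simp [Fm.ex]
@[simp] theorem Fm.sat_exS (φ : Fm) (v V) : φ.exS.Sat v V ↔ ∃ A, φ.Sat v (push A V) := by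
  simp [Fm.exS]
@[simp] theorem Tm.val_var (i : ℕ) (v) : (Tm.var i).val v = v i := rfl
@[simp] theorem Tm.val_zero (v) : Tm.zero.val v = 0 := rfl
@[simp] theorem Tm.val_one (v) : Tm.one.val v = 1 := rfl
@[simp] theorem Tm.val_add (t s : Tm) (v) : (Tm.add t s).val v = t.val v + s.val v := rfl
@[simp] theorem Tm.val_mul (t s : Tm) (v) : (Tm.mul t s).val v = t.val v * s.val v := rfl

theorem Tm.val_trav (f : ℕ → Tm) (t : Tm) (v : ℕ → ℕ) :
    (t.trav f).val v = t.val (fun i => (f i).val v) := by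
  induction t with
  | var i => rfl
  | zero => rfl
  | one => rfl
  | add t s ht hs => simp [Tm.trav, ht, hs]
  | mul t s ht hs => simp [Tm.trav, ht, hs]

theorem Fm.sat_trav (N : ℕ → ℕ → Tm) (M : ℕ → ℕ → ℕ)
    (hN : ∀ (k : ℕ) (v : ℕ → ℕ) (a i : ℕ),
      (N (k + 1) i).val (push a v) = push a (fun j => (N k j).val v) i)
    (hM : ∀ (l : ℕ) (V : ℕ → Set ℕ) (A : Set ℕ) (X : ℕ),
      push A V (M (l + 1) X) = push A (fun Y => V (M l Y)) X) (φ : Fm) :
    ∀ (k l : ℕ) (v : ℕ → ℕ) (V : ℕ → Set ℕ),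
      (Fm.trav N M k l φ).Sat v V ↔ φ.Sat (fun i => (N k i).val v) (fun X => V (M l X)) := by
  induction φ with
  | eq t s => intro k l v V; simp [Fm.trav, Tm.val_trav]
  | lt t s => intro k l v V; simp [Fm.trav, Tm.val_trav]
  | mem t X => intro k l v V; simp [Fm.trav, Tm.val_trav]
  | bot => intro k l v V; simp [Fm.trav]
  | imp φ ψ hφ hψ => intro k l v V; simp [Fm.trav, hφ, hψ]
  | all φ h =>
    intro k l v V
    simp only [Fm.trav, Fm.sat_all, h]
    refine forall_congr' fun a => ?_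
    rw [show (fun i => (N (k + 1) i).val (push a v)) = push a (fun j => (N k j).val v) from
      funext fun i => hN k v a i]
  | allS φ h =>
    intro k l v V
    simp only [Fm.trav, Fm.sat_allS, h]
    refine forall_congr' fun A => ?_
    rw [show (fun X => push A V (M (l + 1) X)) = push A (fun Y => V (M l Y)) from
      funext fun X => hM l V A X]

theorem liftN_push (k : ℕ) (v : ℕ → ℕ) (a i : ℕ) :
    (liftN (k + 1) i).val (push a v) = push a (fun j => (liftN k j).val v) i := by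
  cases i with
  | zero => simp [liftN]
  | succ i =>
    by_cases h : i < k
    · simp [liftN, h]
    · simp [liftN, h]

theorem liftM_push (l : ℕ) (V : ℕ → Set ℕ) (A : Set ℕ) (X : ℕ) :
    push A V (liftM (l + 1) X) = push A (fun Y => V (liftM l Y)) X := by
  cases X with
  | zero => simp [liftM]
  | succ X =>
    by_cases h : X < l
    · simp [liftM, h]
    · simp [liftM, h]

theorem instN_push (t : Tm) (k : ℕ) (v : ℕ → ℕ) (a i : ℕ) :
    (instN t (k + 1) i).val (push a v) = push a (fun j => (instN t k j).val v) i := by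
  cases i with
  | zero => simp [instN]
  | succ i =>
    rcases lt_trichotomy i k with h | h | h
    · simp [instN, h]
    · subst h
      simp only [instN, lt_irrefl, if_false, if_true, push_succ, Tm.val_trav]
      rfl
    · have h1 : ¬ i < k := by omega
      have h2 : i ≠ k := by omega
      obtain ⟨j, rfl⟩ : ∃ j, i = j + 1 := ⟨i - 1, by omega⟩
      simp [instN, h1, h2]

theorem instM_push (Y : ℕ) (l : ℕ) (V : ℕ → Set ℕ) (A : Set ℕ) (X : ℕ) :
    push A V (instM Y (l + 1) X) = push A (fun Z => V (instM Y l Z)) X := by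
  cases X with
  | zero => simp [instM]
  | succ X =>
    rcases lt_trichotomy X l with h | h | h
    · simp [instM, h]
    · subst h
      simp only [instM, lt_irrefl, if_false, push_succ]
      rfl
    · have h1 : ¬ X < l := by omega
      have h2 : X ≠ l := by omega
      obtain ⟨j, rfl⟩ : ∃ j, X = j + 1 := ⟨X - 1, by omega⟩
      simp [instM, h1, h2]

theorem var_push (k : ℕ) (v : ℕ → ℕ) (a i : ℕ) :
    ((fun (_ : ℕ) (i : ℕ) => Tm.var i) (k + 1) i).val (push a v) =
      push a (fun j => ((fun (_ : ℕ) (i : ℕ) => Tm.var i) k j).val v) i := by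
  cases i <;> rfl

theorem id_push (l : ℕ) (V : ℕ → Set ℕ) (A : Set ℕ) (X : ℕ) :
    push A V ((fun (_ : ℕ) (X : ℕ) => X) (l + 1) X) =
      push A (fun Y => V ((fun (_ : ℕ) (X : ℕ) => X) l Y)) X := by
  cases X <;> rfl

theorem Fm.sat_lift (k : ℕ) (φ : Fm) (v : ℕ → ℕ) (V : ℕ → Set ℕ) :
    (φ.lift k).Sat v V ↔ φ.Sat (fun i => if i < k then v i else v (i + 1)) V := by
  rw [Fm.lift, Fm.sat_trav _ _ liftN_push id_push]
  have : (fun i => (liftN k i).val v) = (fun i => if i < k then v i else v (i + 1)) := by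
    funext i
    by_cases h : i < k <;> simp [liftN, h]
  rw [this]

theorem Fm.sat_lift_zero (φ : Fm) (v : ℕ → ℕ) (a : ℕ) (V : ℕ → Set ℕ) :
    (φ.lift 0).Sat (push a v) V ↔ φ.Sat v V := by
  rw [Fm.sat_lift]
  simp

theorem Fm.sat_liftS (l : ℕ) (φ : Fm) (v : ℕ → ℕ) (V : ℕ → Set ℕ) :
    (φ.liftS l).Sat v V ↔ φ.Sat v (fun X => if X < l then V X else V (X + 1)) := by
  rw [Fm.liftS, Fm.sat_trav _ _ var_push liftM_push]
  have : (fun X => V (liftM l X)) = (fun X => if X < l then V X else V (X + 1)) := by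
    funext X
    by_cases h : X < l <;> simp [liftM, h]
  rw [this]
  rfl

theorem Fm.sat_liftS_zero (φ : Fm) (v : ℕ → ℕ) (A : Set ℕ) (V : ℕ → Set ℕ) :
    (φ.liftS 0).Sat v (push A V) ↔ φ.Sat v V := by
  rw [Fm.sat_liftS]
  simp

theorem Fm.sat_inst (t : Tm) (φ : Fm) (v : ℕ → ℕ) (V : ℕ → Set ℕ) :
    (φ.inst t).Sat v V ↔ φ.Sat (push (t.val v) v) V := by
  rw [Fm.inst, Fm.sat_trav _ _ (instN_push t) id_push]
  have : (fun i => (instN t 0 i).val v) = push (t.val v) v := by
    funext i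
    cases i with
    | zero => simp [instN, Tm.val_trav]
    | succ i => simp [instN]
  rw [this]

theorem Fm.sat_instS (Y : ℕ) (φ : Fm) (v : ℕ → ℕ) (V : ℕ → Set ℕ) :
    (φ.instS Y).Sat v V ↔ φ.Sat v (push (V Y) V) := by
  rw [Fm.instS, Fm.sat_trav _ _ var_push (instM_push Y)]
  have : (fun X => V (instM Y 0 X)) = push (V Y) V := by
    funext X
    cases X with
    | zero => simp [instM]
    | succ X => simp [instM]
  rw [this]
  rfl

/-- Soundness of the calculus. -/
theorem Prf.sound {Γ : List Fm} {φ : Fm} (h : Prf Γ φ) :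
    ∀ (v : ℕ → ℕ) (V : ℕ → Set ℕ), (∀ ψ ∈ Γ, ψ.Sat v V) → φ.Sat v V := by
  induction h with
  | hyp h => intro v V hΓ; exact hΓ _ h
  | impI _ ih =>
    intro v V hΓ hφ
    refine ih v V fun ψ hψ => ?_
    rcases List.mem_cons.1 hψ with rfl | hψ
    · exact hφ
    · exact hΓ _ hψ
  | impE _ _ ih1 ih2 => intro v V hΓ; exact ih1 v V hΓ (ih2 v V hΓ)
  | raa _ ih =>
    intro v V hΓ
    by_contra hφ
    refine ih v V fun ψ hψ => ?_
    rcases List.mem_cons.1 hψ with rfl | hψ
    · exact hφ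
    · exact hΓ _ hψ
  | allI _ ih =>
    intro v V hΓ a
    refine ih _ V fun ψ hψ => ?_
    obtain ⟨χ, hχ, rfl⟩ := List.mem_map.1 hψ
    exact (Fm.sat_lift_zero χ v a V).2 (hΓ _ hχ)
  | allE t _ ih => intro v V hΓ; exact (Fm.sat_inst _ _ _ _).2 (ih v V hΓ _)
  | allSI _ ih =>
    intro v V hΓ A
    refine ih v _ fun ψ hψ => ?_
    obtain ⟨χ, hχ, rfl⟩ := List.mem_map.1 hψ
    exact (Fm.sat_liftS_zero χ v A V).2 (hΓ _ hχ)
  | allSE Y _ ih => intro v V hΓ; exact (Fm.sat_instS _ _ _ _).2 (ih v V hΓ _)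
  | eqI t => intro v V _; rfl
  | eqE _ _ ih1 ih2 =>
    intro v V hΓ
    have h1 := ih1 v V hΓ
    have h2 := ih2 v V hΓ
    rw [Fm.sat_inst] at h2 ⊢
    rw [Fm.sat_eq] at h1
    rwa [← h1]

theorem Tm.val_congr {t : Tm} {n : ℕ} (h : t.Closed n) {v w : ℕ → ℕ} (hv : ∀ i < n, v i = w i) :
    t.val v = t.val w := by
  induction t with
  | var i => exact hv i h
  | zero => rfl
  | one => rfl
  | add t s ht hs => simp [ht h.1, hs h.2]
  | mul t s ht hs => simp [ht h.1, hs h.2]

theorem Fm.sat_congr {φ : Fm} : ∀ {n m : ℕ}, φ.Closed n m → ∀ {v w : ℕ → ℕ} {V W : ℕ → Set ℕ},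
    (∀ i < n, v i = w i) → (∀ X < m, V X = W X) → (φ.Sat v V ↔ φ.Sat w W) := by
  induction φ with
  | eq t s => intro n m h v w V W hv hV; simp [Tm.val_congr h.1 hv, Tm.val_congr h.2 hv]
  | lt t s => intro n m h v w V W hv hV; simp [Tm.val_congr h.1 hv, Tm.val_congr h.2 hv]
  | mem t X => intro n m h v w V W hv hV; simp [Tm.val_congr h.1 hv, hV X h.2]
  | bot => intro n m h v w V W hv hV; simp
  | imp φ ψ hφ hψ => intro n m h v w V W hv hV; simp [hφ h.1 hv hV, hψ h.2 hv hV]
  | all φ ih =>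
    intro n m h v w V W hv hV
    refine forall_congr' fun a => ih h (fun i hi => ?_) hV
    cases i with
    | zero => rfl
    | succ i => exact hv i (by omega)
  | allS φ ih =>
    intro n m h v w V W hv hV
    refine forall_congr' fun A => ih h hv (fun X hX => ?_)
    cases X with
    | zero => rfl
    | succ X => exact hV X (by omega)

theorem Tm.Closed.mono {t : Tm} {n n' : ℕ} (h : t.Closed n) (hn : n ≤ n') : t.Closed n' := by
  induction t with
  | var i => exact lt_of_lt_of_le h hn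
  | zero => trivial
  | one => trivial
  | add t s ht hs => exact ⟨ht h.1, hs h.2⟩
  | mul t s ht hs => exact ⟨ht h.1, hs h.2⟩

theorem Fm.Closed.mono {φ : Fm} : ∀ {n m n' m' : ℕ}, φ.Closed n m → n ≤ n' → m ≤ m' →
    φ.Closed n' m' := by
  induction φ with
  | eq t s => intro n m n' m' h hn hm; exact ⟨h.1.mono hn, h.2.mono hn⟩
  | lt t s => intro n m n' m' h hn hm; exact ⟨h.1.mono hn, h.2.mono hn⟩
  | mem t X => intro n m n' m' h hn hm; exact ⟨h.1.mono hn, lt_of_lt_of_le h.2 hm⟩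
  | bot => intro n m n' m' h hn hm; trivial
  | imp φ ψ hφ hψ => intro n m n' m' h hn hm; exact ⟨hφ h.1 hn hm, hψ h.2 hn hm⟩
  | all φ ih => intro n m n' m' h hn hm; exact ih (n := n + 1) h (by omega) hm
  | allS φ ih => intro n m n' m' h hn hm; exact ih (m := m + 1) h hn (by omega)

/-! ### Syntactic identities -/

theorem Tm.trav_eq_self {t : Tm} {n : ℕ} (h : t.Closed n) {f : ℕ → Tm}
    (hf : ∀ i < n, f i = .var i) : t.trav f = t := by
  induction t with
  | var i => exact hf i h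
  | zero => rfl
  | one => rfl
  | add t s ht hs => simp [Tm.trav, ht h.1, hs h.2]
  | mul t s ht hs => simp [Tm.trav, ht h.1, hs h.2]

theorem Fm.trav_eq_self {N : ℕ → ℕ → Tm} {M : ℕ → ℕ → ℕ} {φ : Fm} :
    ∀ {n m k l : ℕ}, φ.Closed n m → (∀ j, ∀ i < n + j, N (k + j) i = .var i) →
      (∀ j, ∀ X < m + j, M (l + j) X = X) → Fm.trav N M k l φ = φ := by
  induction φ with
  | eq t s =>
    intro n m k l h hN hM
    simp [Fm.trav, Tm.trav_eq_self h.1 (by simpa using hN 0), Tm.trav_eq_self h.2 (by simpa using hN 0)]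
  | lt t s =>
    intro n m k l h hN hM
    simp [Fm.trav, Tm.trav_eq_self h.1 (by simpa using hN 0), Tm.trav_eq_self h.2 (by simpa using hN 0)]
  | mem t X =>
    intro n m k l h hN hM
    have := hM 0 X h.2
    simp only [add_zero] at this
    simp [Fm.trav, Tm.trav_eq_self h.1 (by simpa using hN 0), this]
  | bot => intro n m k l h hN hM; rfl
  | imp φ ψ hφ hψ => intro n m k l h hN hM; simp [Fm.trav, hφ h.1 hN hM, hψ h.2 hN hM]
  | all φ ih =>
    intro n m k l h hN hM
    simp only [Fm.trav]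
    rw [ih (n := n + 1) (k := k + 1) h (fun j i hi => ?_) hM]
    have := hN (j + 1) i (by omega)
    rwa [show k + 1 + j = k + (j + 1) by omega]
  | allS φ ih =>
    intro n m k l h hN hM
    simp only [Fm.trav]
    rw [ih (m := m + 1) (l := l + 1) h hN (fun j X hX => ?_)]
    have := hM (j + 1) X (by omega)
    rwa [show l + 1 + j = l + (j + 1) by omega]

theorem Fm.lift_eq_self {φ : Fm} {n m k : ℕ} (h : φ.Closed n m) (hk : n ≤ k) : φ.lift k = φ :=
  Fm.trav_eq_self h (fun j i hi => by simp [liftN, show i < k + j by omega]) (fun _ _ _ => rfl)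

theorem Fm.liftS_eq_self {φ : Fm} {n m l : ℕ} (h : φ.Closed n m) (hl : m ≤ l) : φ.liftS l = φ :=
  Fm.trav_eq_self h (fun _ _ _ => rfl) (fun j i hi => by simp [liftM, show i < l + j by omega])

theorem Tm.trav_var (t : Tm) : t.trav (fun i => .var i) = t := by
  induction t with
  | var i => rfl
  | zero => rfl
  | one => rfl
  | add t s ht hs => simp [Tm.trav, ht, hs]
  | mul t s ht hs => simp [Tm.trav, ht, hs]

theorem Tm.trav_trav (f g : ℕ → Tm) (t : Tm) :
    (t.trav g).trav f = t.trav (fun i => (g i).trav f) := by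
  induction t with
  | var i => rfl
  | zero => rfl
  | one => rfl
  | add t s ht hs => simp [Tm.trav, ht, hs]
  | mul t s ht hs => simp [Tm.trav, ht, hs]

/-- Substituting the variable `0` for itself does nothing to a formula with only the
number variable `0` free. -/
theorem Fm.inst_var_eq_self {φ : Fm} {m : ℕ} (h : φ.Closed 1 m) : φ.inst (.var 0) = φ := by
  refine Fm.trav_eq_self h (fun j i hi => ?_) (fun _ _ _ => rfl)
  rcases lt_or_eq_of_le (show i ≤ j by omega) with h | h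
  · simp [instN, h]
  · subst h
    simp [instN, Tm.trav]

theorem Fm.instS_var_eq_self {φ : Fm} {n : ℕ} (h : φ.Closed n 1) : φ.instS 0 = φ := by
  refine Fm.trav_eq_self h (fun _ _ _ => rfl) (fun j i hi => ?_)
  rcases lt_or_eq_of_le (show i ≤ j by omega) with h | h
  · simp [instM, h]
  · subst h
    simp [instM]

theorem Fm.trav_trav_eq_self {N N' : ℕ → ℕ → Tm} {M M' : ℕ → ℕ → ℕ} {φ : Fm} :
    ∀ {k k' l l' : ℕ}, (∀ j i, (N' (k' + j) i).trav (N (k + j)) = .var i) →
      (∀ j X, M (l + j) (M' (l' + j) X) = X) →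
      Fm.trav N M k l (Fm.trav N' M' k' l' φ) = φ := by
  induction φ with
  | eq t s =>
    intro k k' l l' hN hM
    have h0 : (fun i => (N' k' i).trav (N k)) = fun i => .var i := funext fun i => hN 0 i
    simp [Fm.trav, Tm.trav_trav, h0, Tm.trav_var]
  | lt t s =>
    intro k k' l l' hN hM
    have h0 : (fun i => (N' k' i).trav (N k)) = fun i => .var i := funext fun i => hN 0 i
    simp [Fm.trav, Tm.trav_trav, h0, Tm.trav_var]
  | mem t X =>
    intro k k' l l' hN hM
    have h0 : (fun i => (N' k' i).trav (N k)) = fun i => .var i := funext fun i => hN 0 i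
    have h1 := hM 0 X
    simp only [add_zero] at h1
    simp [Fm.trav, Tm.trav_trav, h0, Tm.trav_var, h1]
  | bot => intro k k' l l' hN hM; rfl
  | imp φ ψ hφ hψ => intro k k' l l' hN hM; simp [Fm.trav, hφ hN hM, hψ hN hM]
  | all φ ih =>
    intro k k' l l' hN hM
    simp only [Fm.trav]
    rw [ih (k := k + 1) (k' := k' + 1) (fun j i => ?_) hM]
    have := hN (j + 1) i
    rwa [show k + 1 + j = k + (j + 1) by omega, show k' + 1 + j = k' + (j + 1) by omega]
  | allS φ ih =>
    intro k k' l l' hN hM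
    simp only [Fm.trav]
    rw [ih (l := l + 1) (l' := l' + 1) hN (fun j X => ?_)]
    have := hM (j + 1) X
    rwa [show l + 1 + j = l + (j + 1) by omega, show l' + 1 + j = l' + (j + 1) by omega]

/-- The eigenvariable of `allI` can be put back. -/
theorem Fm.inst_var_lift_one (φ : Fm) : (φ.lift 1).inst (.var 0) = φ := by
  refine Fm.trav_trav_eq_self (fun j i => ?_) (fun _ _ => rfl)
  by_cases h : i < 1 + j
  · rcases lt_or_eq_of_le (show i ≤ j by omega) with h' | h'
    · simp [liftN, instN, Tm.trav, h, h']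
    · subst h'
      simp [liftN, instN, Tm.trav]
  · have h1 : ¬ i + 1 < j := by omega
    have h2 : i + 1 ≠ j := by omega
    simp [liftN, instN, Tm.trav, h, h1, h2]

theorem Fm.instS_var_liftS_one (φ : Fm) : (φ.liftS 1).instS 0 = φ := by
  refine Fm.trav_trav_eq_self (fun _ _ => rfl) (fun j i => ?_)
  by_cases h : i < 1 + j
  · rcases lt_or_eq_of_le (show i ≤ j by omega) with h' | h'
    · simp [liftM, instM, h, h']
    · subst h'
      simp [liftM, instM]
  · have h1 : ¬ i + 1 < j := by omega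
    have h2 : i + 1 ≠ j := by omega
    simp [liftM, instM, h, h1, h2]

end Pool.Agent.LibSOA
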