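import Pool.Agent.LibSOA.Theory

/-! A true theory that proves its own `Π¹₁` soundness with respect to a `Π¹₁` definition
of its axioms. -/

namespace Pool.Agent.LibSOA

open Fm Tm

/-! ### Closed formulas -/

@[simp] theorem closed_neg (φ : Fm) (n m : ℕ) : φ.neg.Closed n m ↔ φ.Closed n m := by
  simp [Fm.neg, Fm.Closed]
@[simp] theorem closed_and (φ ψ : Fm) (n m : ℕ) :
    (Fm.and φ ψ).Closed n m ↔ φ.Closed n m ∧ ψ.Closed n m := by
  simp [Fm.and, Fm.Closed]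
@[simp] theorem closed_or (φ ψ : Fm) (n m : ℕ) :
    (Fm.or φ ψ).Closed n m ↔ φ.Closed n m ∧ ψ.Closed n m := by
  simp [Fm.or, Fm.Closed]
@[simp] theorem closed_iff (φ ψ : Fm) (n m : ℕ) :
    (Fm.iff φ ψ).Closed n m ↔ φ.Closed n m ∧ ψ.Closed n m := by
  simp [Fm.iff, Fm.Closed]
  tauto
@[simp] theorem closed_ex (φ : Fm) (n m : ℕ) : φ.ex.Closed n m ↔ φ.Closed (n + 1) m := by
  simp [Fm.ex, Fm.Closed, Fm.neg]
@[simp] theorem closed_exS (φ : Fm) (n m : ℕ) : φ.exS.Closed n m ↔ φ.Closed n (m + 1) := by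
  simp [Fm.exS, Fm.Closed, Fm.neg]
@[simp] theorem closed_imp (φ ψ : Fm) (n m : ℕ) :
    (imp φ ψ).Closed n m ↔ φ.Closed n m ∧ ψ.Closed n m := Iff.rfl
@[simp] theorem closed_all (φ : Fm) (n m : ℕ) :
    (all φ).Closed n m ↔ φ.Closed (n + 1) m := Iff.rfl
@[simp] theorem closed_allS (φ : Fm) (n m : ℕ) :
    (allS φ).Closed n m ↔ φ.Closed n (m + 1) := Iff.rfl
@[simp] theorem closed_bot (n m : ℕ) : bot.Closed n m := trivial

@[simp] theorem arith_neg (φ : Fm) : φ.neg.Arith ↔ φ.Arith := by simp [Fm.neg, Fm.Arith]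
@[simp] theorem arith_and (φ ψ : Fm) : (Fm.and φ ψ).Arith ↔ φ.Arith ∧ ψ.Arith := by
  simp [Fm.and, Fm.Arith]
@[simp] theorem arith_or (φ ψ : Fm) : (Fm.or φ ψ).Arith ↔ φ.Arith ∧ ψ.Arith := by
  simp [Fm.or, Fm.Arith]
@[simp] theorem arith_iff (φ ψ : Fm) : (Fm.iff φ ψ).Arith ↔ φ.Arith ∧ ψ.Arith := by
  simp [Fm.iff, Fm.Arith]
  tauto
@[simp] theorem arith_ex (φ : Fm) : φ.ex.Arith ↔ φ.Arith := by simp [Fm.ex, Fm.Arith, Fm.neg]
@[simp] theorem arith_imp (φ ψ : Fm) : (imp φ ψ).Arith ↔ φ.Arith ∧ ψ.Arith := Iff.rfl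
@[simp] theorem arith_all (φ : Fm) : (all φ).Arith ↔ φ.Arith := Iff.rfl
@[simp] theorem arith_bot : bot.Arith := trivial

/-! ### Derived rules -/

theorem Prf.weaken {Γ : List Fm} {φ : Fm} (h : Prf Γ φ) : ∀ {Δ : List Fm}, Γ ⊆ Δ → Prf Δ φ := by
  induction h with
  | hyp h => intro Δ hΔ; exact .hyp (hΔ h)
  | impI _ ih => intro Δ hΔ; exact .impI (ih (List.cons_subset_cons _ hΔ))
  | impE _ _ ih1 ih2 => intro Δ hΔ; exact .impE (ih1 hΔ) (ih2 hΔ)
  | raa _ ih => intro Δ hΔ; exact .raa (ih (List.cons_subset_cons _ hΔ))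
  | allI _ ih => intro Δ hΔ; exact .allI (ih (List.map_subset _ hΔ))
  | allE t _ ih => intro Δ hΔ; exact .allE t (ih hΔ)
  | allSI _ ih => intro Δ hΔ; exact .allSI (ih (List.map_subset _ hΔ))
  | allSE Y _ ih => intro Δ hΔ; exact .allSE Y (ih hΔ)
  | eqI t => intro Δ _; exact .eqI t
  | eqE _ _ ih1 ih2 => intro Δ hΔ; exact .eqE (ih1 hΔ) (ih2 hΔ)

theorem Prf.cut {Γ : List Fm} {φ ψ : Fm} (h1 : Prf Γ φ) (h2 : Prf (φ :: Γ) ψ) : Prf Γ ψ :=
  .impE (.impI h2) h1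

theorem Prf.exfalso {Γ : List Fm} {φ : Fm} (h : Prf Γ .bot) : Prf Γ φ :=
  .raa (h.weaken (List.subset_cons_self _ _))

theorem Prf.hyp0 {Γ : List Fm} {φ : Fm} : Prf (φ :: Γ) φ := .hyp (by simp)
theorem Prf.hyp1 {Γ : List Fm} {φ ψ : Fm} : Prf (ψ :: φ :: Γ) φ := .hyp (by simp)
theorem Prf.hyp2 {Γ : List Fm} {φ ψ χ : Fm} : Prf (χ :: ψ :: φ :: Γ) φ := .hyp (by simp)

theorem Prf.w1 {Γ : List Fm} {φ ψ : Fm} (h : Prf Γ φ) : Prf (ψ :: Γ) φ :=
  h.weaken (List.subset_cons_self _ _)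

theorem Prf.cases {Γ : List Fm} (φ : Fm) {ψ : Fm} (h1 : Prf (φ :: Γ) ψ)
    (h2 : Prf (φ.neg :: Γ) ψ) : Prf Γ ψ := by
  refine .raa ?_
  have h3 : Prf (ψ.neg :: Γ) φ.neg := by
    refine .impI (.impE (φ := ψ) .hyp1 (h1.weaken ?_))
    intro x hx
    simp only [List.mem_cons] at hx ⊢
    tauto
  refine .impE (φ := ψ) .hyp0 (.cut h3 (h2.weaken ?_))
  intro x hx
  simp only [List.mem_cons] at hx ⊢
  tauto

theorem Prf.andI {Γ : List Fm} {φ ψ : Fm} (h1 : Prf Γ φ) (h2 : Prf Γ ψ) : Prf Γ (Fm.and φ ψ) :=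
  .impI (.impE (φ := ψ) (.impE (φ := φ) .hyp0 h1.w1) h2.w1)

theorem Prf.andE1 {Γ : List Fm} {φ ψ : Fm} (h : Prf Γ (Fm.and φ ψ)) : Prf Γ φ := by
  refine .raa (.impE (φ := imp φ ψ.neg) h.w1 (.impI (.exfalso ?_)))
  exact .impE (φ := φ) .hyp1 .hyp0

theorem Prf.andE2 {Γ : List Fm} {φ ψ : Fm} (h : Prf Γ (Fm.and φ ψ)) : Prf Γ ψ := by
  refine .raa (.impE (φ := imp φ ψ.neg) h.w1 (.impI ?_))
  exact .hyp1

theorem lift_neg (k : ℕ) (φ : Fm) : (φ.neg).lift k = (φ.lift k).neg := rfl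
theorem lift_and (k : ℕ) (φ ψ : Fm) : (Fm.and φ ψ).lift k = Fm.and (φ.lift k) (ψ.lift k) := rfl
theorem lift_ex (k : ℕ) (φ : Fm) : (φ.ex).lift k = (φ.lift (k + 1)).ex := rfl
theorem lift_all (k : ℕ) (φ : Fm) : (all φ).lift k = all (φ.lift (k + 1)) := rfl
theorem inst_neg (t : Tm) (φ : Fm) : (φ.neg).inst t = (φ.inst t).neg := rfl

theorem Prf.exE {Γ : List Fm} {φ ψ : Fm} (h : Prf Γ φ.ex)
    (h' : Prf (φ :: Γ.map (Fm.lift 0)) (ψ.lift 0)) : Prf Γ ψ := by
  refine .raa (.impE (φ := all φ.neg) h.w1 (.allI (.impI ?_)))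
  refine .impE (φ := ψ.lift 0) ?_ (h'.weaken ?_)
  · simp only [List.map_cons, lift_neg]
    exact .hyp1
  · intro x hx
    simp only [List.mem_cons, List.map_cons] at hx ⊢
    tauto

theorem Prf.exI {Γ : List Fm} {φ : Fm} (t : Tm) (h : Prf Γ (φ.inst t)) : Prf Γ φ.ex := by
  refine .impI (.impE (φ := φ.inst t) ?_ h.w1)
  have := Prf.allE (Γ := all φ.neg :: Γ) (φ := φ.neg) t .hyp0
  rwa [inst_neg] at this

/-- From `∀ y θ` (moved under one more quantifier) infer `θ`. -/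
theorem Prf.allE_self {Γ : List Fm} {φ : Fm} (h : Prf Γ ((all φ).lift 0)) : Prf Γ φ := by
  rw [lift_all] at h
  have := Prf.allE (.var 0) h
  rwa [Fm.inst_var_lift_one] at this

namespace Arithmetization

variable (A : Arithmetization)

theorem pr_closed {σ : Fm} (h : σ.Closed 1 0) : (A.Pr σ).Closed 1 0 := by
  simp only [Pr, closed_ex, closed_and, closed_all, closed_imp]
  exact ⟨A.der_arith.2, A.hyp_arith.2.mono (by omega) le_rfl, h.mono (by omega) le_rfl⟩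

theorem rfn_closed {σ : Fm} (h : σ.Closed 1 0) : (A.RFN σ).Closed 0 0 := by
  simp only [RFN, closed_all, closed_imp, closed_allS]
  exact ⟨A.pi_arith.2, A.pr_closed h, A.tr_arith.2⟩

/-- Monotonicity of the provability predicate. -/
theorem pr_mono {σ σ' : Fm} {Δ : List Fm} (hΔ : ∀ ψ ∈ Δ, ψ.Closed 0 0)
    (hσ : Prf (σ :: Δ) σ') {Γ : List Fm} (hΓ : Δ ⊆ Γ) (h : Prf Γ (A.Pr σ)) :
    Prf Γ (A.Pr σ') := by
  refine .exE h ?_
  set B : Fm := Fm.and A.der (all (imp A.hyp σ)) with hB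
  rw [Arithmetization.Pr, lift_ex]
  refine .exI (.var 0) ?_
  rw [Fm.inst_var_lift_one]
  refine .andI (Prf.andE1 (ψ := all (imp A.hyp σ)) .hyp0) ?_
  refine .allI (.impI ?_)
  simp only [List.map_cons]
  have hx : Prf (A.hyp :: B.lift 0 :: (Γ.map (Fm.lift 0)).map (Fm.lift 0)) σ := by
    refine .impE (φ := A.hyp) (.allE_self (φ := imp A.hyp σ) ?_) .hyp0
    have : Prf (A.hyp :: B.lift 0 :: (Γ.map (Fm.lift 0)).map (Fm.lift 0)) (B.lift 0) := .hyp1
    rw [hB, lift_and] at this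
    exact this.andE2
  have hΔ2 : Δ ⊆ (Γ.map (Fm.lift 0)).map (Fm.lift 0) := by
    intro ψ hψ
    have h0 : ψ.lift 0 = ψ := Fm.lift_eq_self (hΔ ψ hψ) le_rfl
    have h1 : ψ ∈ Γ.map (Fm.lift 0) := by
      have := List.mem_map_of_mem (f := Fm.lift 0) (hΓ hψ)
      rwa [h0] at this
    have := List.mem_map_of_mem (f := Fm.lift 0) h1
    rwa [h0] at this
  refine .cut hx (hσ.weaken ?_)
  intro ψ hψ
  rcases List.mem_cons.1 hψ with rfl | hψ
  · simp
  · have := hΔ2 hψ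
    simp only [List.mem_cons]
    exact Or.inr (Or.inr (Or.inr this))

/-- The `Π¹₁` formula `α(x) ∧ RFN(α)`. -/
def tau (α : Fm) : Fm :=
  allS (Fm.and α (all (imp A.pi (imp (A.Pr α) A.tr))))

variable {A} {α : Fm}

theorem tau_closed (h : α.Closed 1 0) : (A.tau α).Closed 1 0 := by
  simp only [tau, closed_allS, closed_and, closed_all, closed_imp]
  exact ⟨h.mono le_rfl (by omega), A.pi_arith.2.mono (by omega) (by omega),
    (A.pr_closed h).mono (by omega) (by omega), A.tr_arith.2.mono (by omega) (by omega)⟩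

theorem pr_arith (h : α.Arith) : (A.Pr α).Arith := by
  simp only [Pr, arith_ex, arith_and, arith_all, arith_imp]
  exact ⟨A.der_arith.1, A.hyp_arith.1, h⟩

theorem tau_pi11 (h : α.Arith) : (A.tau α).IsPi11 := by
  refine ⟨_, ?_, rfl⟩
  simp only [arith_and, arith_all, arith_imp]
  exact ⟨h, A.pi_arith.1, pr_arith h, A.tr_arith.1⟩

theorem tau_imp_alpha (h : α.Closed 1 0) : Prf [A.tau α] α := by
  have h1 : Prf [A.tau α] (Fm.instS 0 (Fm.and α (all (imp A.pi (imp (A.Pr α) A.tr))))) :=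
    .allSE 0 .hyp0
  rw [Fm.instS_var_eq_self (n := 1)] at h1
  · exact h1.andE1
  · have := tau_closed (A := A) h
    simpa only [tau, closed_allS] using this

theorem tau_imp_rfn (h : α.Closed 1 0) : Prf [A.tau α] (A.RFN α) := by
  refine .allI (.impI (.impI (.allSI ?_)))
  simp only [List.map_cons, List.map_nil]
  have e1 : (A.Pr α).liftS 0 = A.Pr α := Fm.liftS_eq_self (A.pr_closed h) le_rfl
  have e2 : A.pi.liftS 0 = A.pi := Fm.liftS_eq_self A.pi_arith.2 le_rfl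
  rw [e1, e2]
  set R : Fm := all (imp A.pi (imp (A.Pr α) A.tr)) with hR
  have hRc : R.Closed 0 1 := by
    simp only [hR, closed_all, closed_imp]
    exact ⟨A.pi_arith.2.mono (by omega) (by omega),
      (A.pr_closed h).mono (by omega) (by omega), A.tr_arith.2⟩
  have e3 : (A.tau α).lift 0 = allS (Fm.and (α.lift 0) R) := by
    have : (A.tau α).lift 0 = allS ((Fm.and α R).trav liftN (fun _ X => X) 0 1) := rfl
    rw [this]
    have e4 : (Fm.and α R).trav liftN (fun _ X => X) 0 1 =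
      Fm.and (α.trav liftN (fun _ X => X) 0 1) (R.trav liftN (fun _ X => X) 0 1) := rfl
    rw [e4]
    have e5 : R.trav liftN (fun _ X => X) 0 1 = R :=
      Fm.trav_eq_self hRc (fun j i hi => by simp only [liftN, hi, if_true])
        (fun _ _ _ => rfl)
    rw [e5]
    congr 2
    have key : ∀ (φ : Fm) (k l l' : ℕ), φ.trav liftN (fun _ X => X) k l =
        φ.trav liftN (fun _ X => X) k l' := by
      intro φ
      induction φ with
      | eq t s => intro k l l'; rfl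
      | lt t s => intro k l l'; rfl
      | mem t X => intro k l l'; rfl
      | bot => intro k l l'; rfl
      | imp φ ψ h1 h2 => intro k l l'; simp only [Fm.trav]; rw [h1 k l l', h2 k l l']
      | all φ ih => intro k l l'; simp only [Fm.trav]; rw [ih (k + 1) l l']
      | allS φ ih => intro k l l'; simp only [Fm.trav]; rw [ih k (l + 1) (l' + 1)]
    exact key α 0 1 0
  rw [e3]
  have e6 : (allS (Fm.and (α.lift 0) R)).liftS 0 = allS ((Fm.and (α.lift 0) R).liftS 1) := rfl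
  rw [e6]
  have h1 : Prf [A.Pr α, A.pi, allS ((Fm.and (α.lift 0) R).liftS 1)]
      (Fm.instS 0 ((Fm.and (α.lift 0) R).liftS 1)) := .allSE 0 .hyp2
  rw [Fm.instS_var_liftS_one] at h1
  have h2 := Prf.allE (.var 0) h1.andE2
  rw [Fm.inst_var_eq_self (m := 1)] at h2
  · exact .impE (.impE h2 .hyp1) .hyp0
  · simpa only [hR, closed_all] using hRc

/-- The key derivation: reflection for pure logic implies reflection for `tau`. -/
theorem rfn_tau (h : α.Closed 1 0) : Prf [A.RFN bot] (A.RFN (A.tau α)) := by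
  have hb : bot.Closed 1 0 := trivial
  have hτ := tau_closed (A := A) h
  refine .allI (.impI (.impI ?_))
  simp only [List.map_cons, List.map_nil]
  rw [Fm.lift_eq_self (A.rfn_closed hb) le_rfl]
  have use : ∀ {σ : Fm}, σ.Closed 1 0 → ∀ {Γ : List Fm}, Prf Γ (A.RFN σ) → Prf Γ A.pi →
      Prf Γ (A.Pr σ) → Prf Γ (allS A.tr) := by
    intro σ hσ Γ h1 h2 h3
    have h4 := Prf.allE (.var 0) h1
    rw [Fm.inst_var_eq_self (m := 0)] at h4
    · exact .impE (.impE h4 h2) h3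
    · have := A.rfn_closed hσ
      simpa only [RFN, closed_all] using this
  refine .cases (A.RFN α) ?_ ?_
  · refine use h .hyp0 .hyp2 ?_
    exact A.pr_mono (Δ := []) (by simp) (tau_imp_alpha h) (by simp) .hyp1
  · refine use hb (.hyp (by simp)) .hyp2 ?_
    refine A.pr_mono (Δ := [(A.RFN α).neg]) ?_ ?_ (by simp) .hyp1
    · intro ψ hψ
      simp only [List.mem_singleton] at hψ
      subst hψ
      simpa using A.rfn_closed h
    · exact .impE (φ := A.RFN α) .hyp1 ((tau_imp_rfn h).weaken (by simp))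

end Arithmetization

end Pool.Agent.LibSOA
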