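import Pool.Agent.LibSOA.Lang

/-! Truth of `Σ¹₁-AC₀` in the standard model; Gödel numbers. -/

namespace Pool.Agent.LibSOA

open Fm Tm

theorem pair_inj {a b c d : ℕ} (h : (a + b) * (a + b) + a = (c + d) * (c + d) + c) :
    a = c ∧ b = d := by
  have key : a + b = c + d := by
    rcases lt_trichotomy (a + b) (c + d) with h1 | h1 | h1
    · exfalso
      have : (a + b + 1) * (a + b + 1) ≤ (c + d) * (c + d) := Nat.mul_le_mul h1 h1
      nlinarith
    · exact h1
    · exfalso
      have : (c + d + 1) * (c + d + 1) ≤ (a + b) * (a + b) := Nat.mul_le_mul h1 h1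
      nlinarith
  rw [key] at h
  omega

theorem compAx_true (φ : Fm) (v V) : (compAx φ).Sat v V := by
  rw [compAx, sat_exS]
  refine ⟨{n | φ.Sat (push n v) V}, ?_⟩
  intro n
  simp [Fm.sat_liftS_zero]

theorem choiceAx_true (η : Fm) (v V) : (choiceAx η).Sat v V := by
  rw [choiceAx, sat_imp]
  intro h
  simp only [sat_all, sat_exS] at h
  choose X hX using h
  rw [sat_exS]
  refine ⟨{k | ∃ m n, k = (m + n) * (m + n) + m ∧ m ∈ X n}, fun n => ?_⟩
  rw [sat_exS]
  refine ⟨X n, ?_⟩
  rw [sat_and]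
  constructor
  · intro m
    simp only [sat_iff, sat_mem, Tm.val_var, push_zero, push_succ, pairTm, Tm.val_add, Tm.val_mul,
      Set.mem_ofPred_eq]
    constructor
    · intro hm
      exact ⟨m, n, rfl, hm⟩
    · rintro ⟨m', n', h1, h2⟩
      obtain ⟨rfl, rfl⟩ := pair_inj h1
      exact h2
  · rw [Fm.sat_liftS]
    convert hX n using 1
    funext Y
    cases Y with
    | zero => simp
    | succ Y => simp

theorem sigmaInst_true {φ : Fm} (h : SigmaInst φ) (v V) : φ.Sat v V := by
  cases h with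
  | a1 => simp
  | a2 => simp
  | a3 => simp
  | a4 => simp [Nat.add_assoc]
  | a5 => simp
  | a6 => simp [Nat.mul_add]
  | a7 => simp
  | a8 =>
    simp only [sat_iff, sat_or, sat_lt, sat_eq, Tm.val_var, Tm.val_add, Tm.val_one]
    omega
  | ind =>
    intro A
    simp only [sat_imp, sat_and, sat_mem, sat_all, Tm.val_zero, Tm.val_var, Tm.val_add, Tm.val_one,
      push_zero]
    rintro ⟨h0, h1⟩ n
    induction n with
    | zero => exact h0
    | succ n ih => exact h1 n ih
  | comp φ _ => exact compAx_true φ v V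
  | choice η _ => exact choiceAx_true η v V

theorem gen_true {A : Fm → Prop} (hA : ∀ φ, A φ → ∀ v V, φ.Sat v V) {φ : Fm} (h : Gen A φ) :
    ∀ v V, φ.Sat v V := by
  induction h with
  | base h => exact hA _ h
  | all _ ih => intro v V a; exact ih _ _
  | allS _ ih => intro v V a; exact ih _ _

theorem sigmaAC0_true {φ : Fm} (h : φ ∈ SigmaAC0) (v V) : φ.Sat v V :=
  gen_true (fun _ h v V => sigmaInst_true h v V) h.2 v V

theorem Tm.code_injective : Function.Injective Tm.code := by
  intro t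
  induction t with
  | var i => intro s h; cases s <;> simp_all [Tm.code, Nat.pair_eq_pair]
  | zero => intro s h; cases s <;> simp_all [Tm.code, Nat.pair_eq_pair]
  | one => intro s h; cases s <;> simp_all [Tm.code, Nat.pair_eq_pair]
  | add t1 t2 h1 h2 =>
    intro s h
    cases s <;> simp [Tm.code, Nat.pair_eq_pair] at h ⊢
    exact ⟨h1 h.1, h2 h.2⟩
  | mul t1 t2 h1 h2 =>
    intro s h
    cases s <;> simp [Tm.code, Nat.pair_eq_pair] at h ⊢
    exact ⟨h1 h.1, h2 h.2⟩

theorem Fm.code_injective : Function.Injective Fm.code := by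
  intro φ
  induction φ with
  | eq t s =>
    intro ψ h
    cases ψ <;> simp [Fm.code, Nat.pair_eq_pair] at h ⊢
    exact ⟨Tm.code_injective h.1, Tm.code_injective h.2⟩
  | lt t s =>
    intro ψ h
    cases ψ <;> simp [Fm.code, Nat.pair_eq_pair] at h ⊢
    exact ⟨Tm.code_injective h.1, Tm.code_injective h.2⟩
  | mem t X =>
    intro ψ h
    cases ψ <;> simp [Fm.code, Nat.pair_eq_pair] at h ⊢
    exact ⟨Tm.code_injective h.1, h.2⟩
  | bot => intro ψ h; cases ψ <;> simp_all [Fm.code, Nat.pair_eq_pair]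
  | imp φ1 φ2 h1 h2 =>
    intro ψ h
    cases ψ <;> simp [Fm.code, Nat.pair_eq_pair] at h ⊢
    exact ⟨h1 h.1, h2 h.2⟩
  | all φ ih =>
    intro ψ h
    cases ψ <;> simp [Fm.code, Nat.pair_eq_pair] at h ⊢
    exact ih h
  | allS φ ih =>
    intro ψ h
    cases ψ <;> simp [Fm.code, Nat.pair_eq_pair] at h ⊢
    exact ih h

end Pool.Agent.LibSOA
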